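import Mathlib

/-!
# MP_bbea99_co: divisibility by `Q, Q + 2, Q + 4, Q + 6`
-/

namespace MPbbea99L

lemma two_dvd_aux {m n x : ℤ} (hm : m ∣ x) (hn : n ∣ x) : m * n ∣ (n - m) * x := by
  obtain ⟨r, hr⟩ := hm
  obtain ⟨s, hs⟩ := hn
  refine ⟨r - s, ?_⟩
  calc (n - m) * x = n * x - m * x := by ring
    _ = n * (m * r) - m * (n * s) := by rw [← hr, ← hs]
    _ = m * n * (r - s) := by ring

lemma three_dvd_aux {a b c x : ℤ} (ha : a ∣ x) (hb : b ∣ x) (hc : c ∣ x) :
    a * b * c ∣ ((a - b) * (a - c) * (b - c)) * x := by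
  obtain ⟨r, hr⟩ := ha
  obtain ⟨s, hs⟩ := hb
  obtain ⟨t, ht⟩ := hc
  refine ⟨r * (b - c) - s * (a - c) + t * (a - b), ?_⟩
  have e : ((a - b) * (a - c) * (b - c)) * x =
      b * c * (b - c) * x - a * c * (a - c) * x + a * b * (a - b) * x := by ring
  rw [e]
  have e1 : b * c * (b - c) * x = b * c * (b - c) * (a * r) := by rw [← hr]
  have e2 : a * c * (a - c) * x = a * c * (a - c) * (b * s) := by rw [← hs]
  have e3 : a * b * (a - b) * x = a * b * (a - b) * (c * t) := by rw [← ht]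
  rw [e1, e2, e3]
  ring

lemma le_abs_of_dvd {m x : ℤ} (h : m ∣ x) (hx : x ≠ 0) : m ≤ |x| :=
  Int.le_of_dvd (abs_pos.2 hx) ((dvd_abs _ _).2 h)

/-- two of the numbers divide the same number -/
lemma two_same {Q m n x : ℤ} (hQ : 0 < Q) (hm : Q ≤ m) (hn : Q ≤ n) (hmn : m ≠ n)
    (hd : |n - m| ≤ 6) (hx : 0 < x) (h1 : m ∣ x) (h2 : n ∣ x) : Q * Q ≤ 6 * x := by
  have h3 := le_abs_of_dvd (two_dvd_aux h1 h2)
    (mul_ne_zero (sub_ne_zero.2 hmn.symm) hx.ne')
  rw [abs_mul, abs_of_pos hx] at h3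
  nlinarith

/-- two of the numbers divide consecutive numbers -/
lemma two_cons {Q m n x : ℤ} (hQ : 0 < Q) (hm : Q ≤ m) (hn : Q ≤ n)
    (hd : 2 ≤ |n - m|) (hd' : |n - m| ≤ 6) (hx : 0 < x) (h1 : m ∣ x) (h2 : n ∣ x + 1) :
    Q * (Q - 1) ≤ 6 * (x + 1) := by
  obtain ⟨u, hu⟩ := h1
  obtain ⟨y, hy⟩ := h2
  have hy0 : 0 < y := by
    by_contra h
    push Not at h
    nlinarith
  have e : (n - m) * y - 1 = m * (u - y) := by
    have : n * y = m * u + 1 := by rw [← hu, ← hy]
    linear_combination this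
  have hne : (n - m) * y - 1 ≠ 0 := by
    intro h
    have h3 : (n - m) * y = 1 := by linarith
    have h4 := Int.isUnit_iff.1 (IsUnit.of_mul_eq_one _ h3)
    rcases h4 with h4 | h4 <;> rw [h4] at hd <;> norm_num at hd
  have h3 := le_abs_of_dvd (Dvd.intro _ e.symm) hne
  have h4 : |(n - m) * y - 1| ≤ 6 * y + 1 := by
    calc |(n - m) * y - 1| ≤ |(n - m) * y| + |(1 : ℤ)| := abs_sub _ _
      _ = |n - m| * y + 1 := by rw [abs_mul, abs_of_pos hy0, abs_one]
      _ ≤ 6 * y + 1 := by nlinarith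
  have h5 : Q - 1 ≤ 6 * y := by linarith
  rw [hy]
  nlinarith

/-- three of the numbers divide the same number -/
lemma three_same {Q a b c x : ℤ} (hQ : 0 < Q) (ha : Q ≤ a) (hb : Q ≤ b) (hc : Q ≤ c)
    (hab : a ≠ b) (hac : a ≠ c) (hbc : b ≠ c)
    (dab : |a - b| ≤ 6) (dac : |a - c| ≤ 6) (dbc : |b - c| ≤ 6)
    (hx : 0 < x) (h1 : a ∣ x) (h2 : b ∣ x) (h3 : c ∣ x) : Q * Q * Q ≤ 216 * x := by
  have h4 := le_abs_of_dvd (three_dvd_aux h1 h2 h3)
    (mul_ne_zero (mul_ne_zero (mul_ne_zero (sub_ne_zero.2 hab) (sub_ne_zero.2 hac))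
      (sub_ne_zero.2 hbc)) hx.ne')
  rw [abs_mul, abs_mul, abs_mul, abs_of_pos hx] at h4
  have h5 : |a - b| * |a - c| * |b - c| ≤ 6 * 6 * 6 :=
    mul_le_mul (mul_le_mul dab dac (abs_nonneg _) (by norm_num)) dbc (abs_nonneg _) (by norm_num)
  have h6 : Q * Q * Q ≤ a * b * c :=
    mul_le_mul (mul_le_mul ha hb hQ.le (by linarith)) hc hQ.le (by nlinarith)
  have h7 := mul_le_mul_of_nonneg_right h5 hx.le
  linarith

/-- two of the numbers divide `x`, a third one divides `x ± 1` -/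
lemma two_one {Q a b c x ε : ℤ} (hQ : 1000 ≤ Q) (ha : Q ≤ a) (ha' : a ≤ Q + 6) (hb : Q ≤ b)
    (hc : Q ≤ c) (hab : a ≠ b) (dab : |b - a| ≤ 6) (dac : |c - a| ≤ 6)
    (dbc : |c - b| ≤ 6) (eac : Even (c - a)) (ebc : Even (c - b)) (hε : ε = 1 ∨ ε = -1)
    (hx : 0 < x) (h1 : a ∣ x) (h2 : b ∣ x) (h3 : c ∣ x + ε) (hxQ : 1000 * x ≤ Q * Q * Q) :
    False := by
  have hε1 : |ε| = 1 := by rcases hε with h | h <;> simp [h]
  rcases Int.even_or_odd a with hea | hoa
  · -- parity
    have hec : Even c := by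
      have : c = (c - a) + a := by ring
      rw [this]
      exact eac.add hea
    have h4 : Even x := by
      obtain ⟨u, hu⟩ := h1
      rw [hu]
      exact hea.mul_right _
    have h5 : Even (x + ε) := by
      obtain ⟨u, hu⟩ := h3
      rw [hu]
      exact hec.mul_right _
    have h6 : Even ε := by
      have : ε = (x + ε) - x := by ring
      rw [this]
      exact h5.sub h4
    rcases hε with h | h <;> rw [h] at h6 <;> revert h6 <;> decide
  · obtain ⟨u, hu⟩ := h1
    obtain ⟨v, hv⟩ := h2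
    obtain ⟨y, hy⟩ := h3
    set d1 := c - a with hd1
    set d2 := c - b with hd2
    have hy0 : 0 ≤ y := by
      by_contra h
      push Not at h
      have h4 : c * y ≤ c * (-1) := mul_le_mul_of_nonneg_left (by omega) (by linarith)
      have h5 : -1 ≤ ε := by rcases hε with h | h <;> rw [h] <;> norm_num
      linarith
    have e1 : d1 * y - ε = a * (u - y) := by
      rw [hd1]
      linear_combination hu - hy
    have e2 : d2 * y - ε = b * (v - y) := by
      rw [hd2]
      linear_combination hv - hy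
    set Z := d1 * d2 * y + ε * (a - d2) with hZ
    have hZa : a ∣ Z := by
      refine ⟨d2 * (u - y) + ε, ?_⟩
      rw [hZ]
      linear_combination d2 * e1
    have hZb : b ∣ Z := by
      refine ⟨d1 * (v - y) + ε, ?_⟩
      rw [hZ]
      linear_combination d1 * e2 + ε * (hd1 - hd2)
    have hZodd : Odd Z := by
      rw [hZ]
      apply Even.add_odd
      · exact (eac.mul_right _).mul_right _
      · apply Odd.mul
        · rcases hε with h | h <;> rw [h] <;> decide
        · exact hoa.sub_even ebc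
    have hZ0 : Z ≠ 0 := by
      intro h
      rw [h] at hZodd
      revert hZodd
      decide
    have h4 := le_abs_of_dvd (two_dvd_aux hZa hZb) (mul_ne_zero (sub_ne_zero.2 hab.symm) hZ0)
    rw [abs_mul] at h4
    have h5 : |Z| ≤ 36 * y + (Q + 12) := by
      calc |Z| ≤ |d1 * d2 * y| + |ε * (a - d2)| := abs_add_le _ _
        _ = |d1| * |d2| * y + |a - d2| := by
            rw [abs_mul, abs_mul, abs_of_nonneg hy0, abs_mul, hε1, one_mul]
        _ ≤ 6 * 6 * y + (Q + 12) := by
            apply add_le_add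
            · exact mul_le_mul_of_nonneg_right
                (mul_le_mul dac dbc (abs_nonneg _) (by norm_num)) hy0
            · refine (abs_sub _ _).trans ?_
              rw [abs_of_nonneg (by linarith : (0 : ℤ) ≤ a)]
              linarith
        _ = _ := by ring
    have h6 : Q * Q ≤ 6 * (36 * y + (Q + 12)) := by
      have h7 : Q * Q ≤ a * b := mul_le_mul ha hb (by linarith) (by linarith)
      have h8 : |b - a| * |Z| ≤ 6 * (36 * y + (Q + 12)) :=
        mul_le_mul dab h5 (abs_nonneg _) (by norm_num)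
      linarith
    -- y is small
    have h7 : Q * y ≤ x + 1 := by
      have h8 : Q * y ≤ c * y := mul_le_mul_of_nonneg_right hc hy0
      have h9 : ε ≤ 1 := by rcases hε with h | h <;> rw [h] <;> norm_num
      linarith
    have h8 : 1000 * y ≤ Q * Q + 1 := by
      by_contra h
      push Not at h
      have h9 : Q * (Q * Q + 2) ≤ Q * (1000 * y) := mul_le_mul_of_nonneg_left (by omega) (by linarith)
      nlinarith
    nlinarith

theorem arith4 {Q x y : ℕ} (hQ : 1000 ≤ Q) (hx : 1 ≤ x) (hy : 1 ≤ y)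
    (hxQ : 12 * (x + 1) ≤ Q * Q) (hyQ : 1000 * (y + 1) ≤ Q * Q * Q)
    (h : ∀ c < 4, (Q + 2 * c ∣ x ∨ Q + 2 * c ∣ x + 1) ∨ (Q + 2 * c ∣ y ∨ Q + 2 * c ∣ y + 1)) :
    False := by
  have hQ' : (1000 : ℤ) ≤ Q := by exact_mod_cast hQ
  have hx' : (0 : ℤ) < x := by exact_mod_cast hx
  have hy' : (0 : ℤ) < y := by exact_mod_cast hy
  have hxQ' : 12 * ((x : ℤ) + 1) ≤ Q * Q := by exact_mod_cast hxQ
  have hyQ' : 1000 * ((y : ℤ) + 1) ≤ Q * Q * Q := by exact_mod_cast hyQ
  have cst : ∀ c z : ℕ, Q + 2 * c ∣ z → ((Q : ℤ) + 2 * c ∣ (z : ℤ)) := by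
    intro c z h1
    have := Int.natCast_dvd_natCast.2 h1
    push_cast at this
    exact this
  have cst1 : ∀ c z : ℕ, Q + 2 * c ∣ z + 1 → ((Q : ℤ) + 2 * c ∣ (z : ℤ) + 1) := by
    intro c z h1
    have := cst c (z + 1) h1
    push_cast at this
    exact this
  -- at most one class in S1
  have hS : ∀ c c' : ℕ, c < c' → c' < 4 → (Q + 2 * c ∣ x ∨ Q + 2 * c ∣ x + 1) →
      (Q + 2 * c' ∣ x ∨ Q + 2 * c' ∣ x + 1) → False := by
    intro c c' h1 h2 h3 h4
    have hc1 : (c : ℤ) < c' := by exact_mod_cast h1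
    have hc2 : (c' : ℤ) < 4 := by exact_mod_cast h2
    have hc0 : (0 : ℤ) ≤ c := Nat.cast_nonneg _
    have e1 : |((Q : ℤ) + 2 * c') - ((Q : ℤ) + 2 * c)| ≤ 6 := by rw [abs_le]; omega
    have e2 : |((Q : ℤ) + 2 * c) - ((Q : ℤ) + 2 * c')| ≤ 6 := by rw [abs_le]; omega
    have e3 : 2 ≤ |((Q : ℤ) + 2 * c') - ((Q : ℤ) + 2 * c)| := by rw [le_abs]; left; omega
    have e4 : 2 ≤ |((Q : ℤ) + 2 * c) - ((Q : ℤ) + 2 * c')| := by rw [le_abs]; right; omega
    rcases h3 with h3 | h3 <;> rcases h4 with h4 | h4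
    · have := two_same (Q := Q) (by linarith) (by linarith) (by linarith) (by omega) e1 hx'
        (cst c x h3) (cst c' x h4)
      nlinarith
    · have := two_cons (Q := Q) (by linarith) (by linarith) (by linarith) e3 e1 hx'
        (cst c x h3) (cst1 c' x h4)
      nlinarith
    · have := two_cons (Q := Q) (by linarith) (by linarith) (by linarith) e4 e2 hx'
        (cst c' x h4) (cst1 c x h3)
      nlinarith
    · have := two_same (Q := Q) (x := (x : ℤ) + 1) (by linarith) (by linarith) (by linarith)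
        (by omega) e1 (by linarith) (cst1 c x h3) (cst1 c' x h4)
      nlinarith
  -- no three classes in S2
  have hT : ∀ a b c : ℕ, a < b → b < c → c < 4 → (Q + 2 * a ∣ y ∨ Q + 2 * a ∣ y + 1) →
      (Q + 2 * b ∣ y ∨ Q + 2 * b ∣ y + 1) → (Q + 2 * c ∣ y ∨ Q + 2 * c ∣ y + 1) → False := by
    intro a b c h1 h2 h3 ha hb hc
    have i1 : (a : ℤ) < b := by exact_mod_cast h1
    have i2 : (b : ℤ) < c := by exact_mod_cast h2
    have i3 : (c : ℤ) < 4 := by exact_mod_cast h3
    have i0 : (0 : ℤ) ≤ a := Nat.cast_nonneg _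
    have key : ∀ a b c : ℤ, 0 ≤ a → a < 4 → 0 ≤ b → b < 4 → 0 ≤ c → c < 4 → a ≠ b →
        ∀ (x ε : ℤ), (ε = 1 ∨ ε = -1) → 0 < x → x ≤ y + 1 → (Q : ℤ) + 2 * a ∣ x →
          (Q : ℤ) + 2 * b ∣ x → (Q : ℤ) + 2 * c ∣ x + ε → False := by
      intro a b c a0 a4 b0 b4 c0 c4 hab x ε hε hx0 hxy k1 k2 k3
      refine two_one (Q := Q) hQ' (by linarith) (by linarith) (by linarith) (by linarith)
        (by omega) ?_ ?_ ?_ ⟨c - a, by ring⟩ ⟨c - b, by ring⟩ hε hx0 k1 k2 k3 (by linarith)
      · rw [abs_le]; constructor <;> linarith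
      · rw [abs_le]; constructor <;> linarith
      · rw [abs_le]; constructor <;> linarith
    have key3 : ∀ x : ℤ, 0 < x → x ≤ y + 1 → (Q : ℤ) + 2 * a ∣ x → (Q : ℤ) + 2 * b ∣ x →
        (Q : ℤ) + 2 * c ∣ x → False := by
      intro x hx0 hxy k1 k2 k3
      have := three_same (Q := Q) (by linarith) (by linarith) (by linarith) (by linarith)
        (by omega) (by omega) (by omega) (by rw [abs_le]; omega) (by rw [abs_le]; omega)
        (by rw [abs_le]; omega) hx0 k1 k2 k3
      linarith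
    rcases ha with ha | ha <;> rcases hb with hb | hb <;> rcases hc with hc | hc
    · exact key3 y hy' (by linarith) (cst _ _ ha) (cst _ _ hb) (cst _ _ hc)
    · exact key a b c (by omega) (by omega) (by omega) (by omega) (by omega) (by omega) (by omega)
        y 1 (Or.inl rfl) hy' (by linarith) (cst _ _ ha) (cst _ _ hb) (cst1 _ _ hc)
    · exact key a c b (by omega) (by omega) (by omega) (by omega) (by omega) (by omega) (by omega)
        y 1 (Or.inl rfl) hy' (by linarith) (cst _ _ ha) (cst _ _ hc) (cst1 _ _ hb)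
    · exact key b c a (by omega) (by omega) (by omega) (by omega) (by omega) (by omega) (by omega)
        (y + 1) (-1) (Or.inr rfl) (by linarith) le_rfl (cst1 _ _ hb) (cst1 _ _ hc)
        (by simpa using cst _ _ ha)
    · exact key b c a (by omega) (by omega) (by omega) (by omega) (by omega) (by omega) (by omega)
        y 1 (Or.inl rfl) hy' (by linarith) (cst _ _ hb) (cst _ _ hc) (cst1 _ _ ha)
    · exact key a c b (by omega) (by omega) (by omega) (by omega) (by omega) (by omega) (by omega)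
        (y + 1) (-1) (Or.inr rfl) (by linarith) le_rfl (cst1 _ _ ha) (cst1 _ _ hc)
        (by simpa using cst _ _ hb)
    · exact key a b c (by omega) (by omega) (by omega) (by omega) (by omega) (by omega) (by omega)
        (y + 1) (-1) (Or.inr rfl) (by linarith) le_rfl (cst1 _ _ ha) (cst1 _ _ hb)
        (by simpa using cst _ _ hc)
    · exact key3 (y + 1) (by linarith) le_rfl (cst1 _ _ ha) (cst1 _ _ hb) (cst1 _ _ hc)
  have g0 := h 0 (by norm_num)
  have g1 := h 1 (by norm_num)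
  have g2 := h 2 (by norm_num)
  have g3 := h 3 (by norm_num)
  rcases g0 with g0 | g0 <;> rcases g1 with g1 | g1 <;> rcases g2 with g2 | g2 <;>
    rcases g3 with g3 | g3
  all_goals first
    | exact hS 0 1 (by norm_num) (by norm_num) g0 g1
    | exact hS 0 2 (by norm_num) (by norm_num) g0 g2
    | exact hS 0 3 (by norm_num) (by norm_num) g0 g3
    | exact hS 1 2 (by norm_num) (by norm_num) g1 g2
    | exact hS 1 3 (by norm_num) (by norm_num) g1 g3
    | exact hS 2 3 (by norm_num) (by norm_num) g2 g3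
    | exact hT 0 1 2 (by norm_num) (by norm_num) (by norm_num) g0 g1 g2
    | exact hT 0 1 3 (by norm_num) (by norm_num) (by norm_num) g0 g1 g3
    | exact hT 0 2 3 (by norm_num) (by norm_num) (by norm_num) g0 g2 g3
    | exact hT 1 2 3 (by norm_num) (by norm_num) (by norm_num) g1 g2 g3

end MPbbea99L
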