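import Pool.Agent.Lib.Pbbea99.Struct

/-!
# MP_bbea99_co: interleaved periodic words

The word `j ↦ (j % k, (j / k) % M (j % k))`: `k` interleaved periodic words, the one at the
positions `≡ c mod k` with `M c` letters.
-/

namespace MPbbea99L

open Finset MPbbea99

lemma cnt_shift_one (P : ℕ → Prop) [DecidablePred P] {a b : ℕ} (h : a ≤ b) :
    cnt (fun k => P (k + 1)) a b = cnt P (a + 1) (b + 1) := by
  induction b, h using Nat.le_induction with
  | base => rw [cnt_self, cnt_self]
  | succ b h ih =>
    rw [cnt_succ_right _ h, ih, cnt_succ_right P (show a + 1 ≤ b + 1 by omega)]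

lemma cnt_succ_left (P : ℕ → Prop) [DecidablePred P] {a b : ℕ} (h : a < b) :
    cnt P a b = (if P a then 1 else 0) + cnt P (a + 1) b := by
  rw [cnt_add P (Nat.le_succ a) h, cnt_succ_right _ le_rfl, cnt_self]
  simp

lemma cnt_le_length (P : ℕ → Prop) [DecidablePred P] (a n : ℕ) : cnt P a (a + n) ≤ n := by
  unfold cnt
  refine (Finset.card_filter_le _ _).trans ?_
  simp

lemma sum_residues {M : ℕ} (hM : 0 < M) {a b : ℕ} (h : a ≤ b) :
    ∑ z ∈ range M, cnt (fun n => n % M = z) a b = b - a := by
  induction b, h using Nat.le_induction with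
  | base => simp [cnt_self]
  | succ b h ih =>
    have h1 : ∀ z ∈ range M, cnt (fun n => n % M = z) a (b + 1) =
        cnt (fun n => n % M = z) a b + (if b % M = z then 1 else 0) := fun z _ =>
      cnt_succ_right _ h
    rw [Finset.sum_congr rfl h1, Finset.sum_add_distrib, ih, Finset.sum_ite_eq,
      if_pos (Finset.mem_range.2 (Nat.mod_lt _ hM))]
    omega

/-- windows with the same residue counts -/
lemma residue_claim {M : ℕ} (hM : 0 < M) (α β L : ℕ)
    (h : ∀ z < M, cnt (fun n => n % M = z) α (α + L) = cnt (fun n => n % M = z) β (β + L)) :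
    M ∣ L ∨ α % M = β % M := by
  by_contra hcon
  push Not at hcon
  obtain ⟨h1, h2⟩ := hcon
  set z := α % M with hz
  have hzM : z < M := Nat.mod_lt _ hM
  -- shifted windows
  have hsh : cnt (fun n => n % M = z) (α + 1) (α + L + 1) =
      cnt (fun n => n % M = z) (β + 1) (β + L + 1) := by
    rw [← cnt_shift_one (fun n => n % M = z) (by omega : α ≤ α + L),
      ← cnt_shift_one (fun n => n % M = z) (by omega : β ≤ β + L)]
    set z' := (z + (M - 1)) % M with hz'
    have hz'M : z' < M := Nat.mod_lt _ hM
    have e : ∀ n, (n + 1) % M = z ↔ n % M = z' := by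
      intro n
      constructor
      · intro h3
        rw [hz', ← h3, Nat.mod_add_mod, show n + 1 + (M - 1) = n + M by omega, Nat.add_mod_right]
      · intro h3
        rw [Nat.add_mod, h3, hz', Nat.mod_add_mod, show z + (M - 1) + 1 % M = z + (M - 1 + 1 % M)
          by omega]
        rcases Nat.eq_or_lt_of_le hM with h4 | h4
        · have : M = 1 := by omega
          subst this
          omega
        · rw [Nat.mod_eq_of_lt h4, show z + (M - 1 + 1) = z + M by omega, Nat.add_mod_right,
            Nat.mod_eq_of_lt hzM]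
    have e1 : ∀ x y, cnt (fun n => (n + 1) % M = z) x y = cnt (fun n => n % M = z') x y :=
      fun x y => cnt_congr _ _ fun k _ _ => e k
    rw [e1, e1]
    exact h z' hz'M
  have hA : cnt (fun n => n % M = z) α (α + L) + (if (α + L) % M = z then 1 else 0) =
      1 + cnt (fun n => n % M = z) (α + 1) (α + L + 1) := by
    rw [← cnt_succ_right _ (by omega : α ≤ α + L), cnt_succ_left _ (by omega : α < α + L + 1),
      if_pos hz.symm]
  have hB : cnt (fun n => n % M = z) β (β + L) + (if (β + L) % M = z then 1 else 0) =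
      cnt (fun n => n % M = z) (β + 1) (β + L + 1) := by
    rw [← cnt_succ_right _ (by omega : β ≤ β + L), cnt_succ_left _ (by omega : β < β + L + 1),
      if_neg (fun h3 => h2 h3.symm), Nat.zero_add]
  have h3 := h z hzM
  have h4 : (α + L) % M = z := by
    by_contra h5
    rw [if_neg h5] at hA
    omega
  apply h1
  have h5 : α ≡ α + L [MOD M] := by
    show α % M = (α + L) % M
    rw [h4]
  exact (Nat.modEq_zero_iff_dvd.1 (Nat.ModEq.add_left_cancel' α (by simpa using h5)).symm)

/-- number of indices below `x` of the class `c` modulo `k` -/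
def idx (k c x : ℕ) : ℕ := (x + (k - 1 - c)) / k

lemma idx_mono {k c x y : ℕ} (h : x ≤ y) : idx k c x ≤ idx k c y :=
  Nat.div_le_div_right (by omega)

lemma idx_eq {k c : ℕ} (hc : c < k) (w : ℕ) {r : ℕ} (hr : r < k) :
    idx k c (k * w + r) = w + if c < r then 1 else 0 := by
  unfold idx
  rw [show k * w + r + (k - 1 - c) = k * w + (r + (k - 1 - c)) by omega,
    Nat.mul_add_div (by omega)]
  congr 1
  split_ifs with h
  · have h1 : 1 * k ≤ r + (k - 1 - c) := by omega
    have h2 : r + (k - 1 - c) < (1 + 1) * k := by omega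
    exact Nat.div_eq_of_lt_le h1 h2
  · exact Nat.div_eq_of_lt (by omega)

lemma idx_diff {k c : ℕ} (hk : 0 < k) (x n : ℕ) :
    idx k c (x + n) = idx k c x + n / k ∨ idx k c (x + n) = idx k c x + n / k + 1 := by
  unfold idx
  rw [show x + n + (k - 1 - c) = (x + (k - 1 - c)) + n by omega, Nat.add_div hk]
  split_ifs
  · right; rfl
  · left; rfl

lemma idx_add_mul {k c : ℕ} (hk : 0 < k) (x w : ℕ) : idx k c (x + k * w) = idx k c x + w := by
  unfold idx
  rw [show x + k * w + (k - 1 - c) = (x + (k - 1 - c)) + k * w by omega,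
    Nat.add_mul_div_left _ _ hk]

lemma cnt_class (R : ℕ → Prop) [DecidablePred R] {k c : ℕ} (hc : c < k) {a b : ℕ} (h : a ≤ b) :
    cnt (fun j => j % k = c ∧ R (j / k)) a b = cnt R (idx k c a) (idx k c b) := by
  induction b, h using Nat.le_induction with
  | base => rw [cnt_self, cnt_self]
  | succ b h ih =>
    rw [cnt_succ_right _ h, ih]
    have hk : 0 < k := by omega
    obtain ⟨w, r, hr, hb⟩ : ∃ w r, r < k ∧ b = k * w + r :=
      ⟨b / k, b % k, Nat.mod_lt _ hk, (Nat.div_add_mod b k).symm⟩
    have h1 : b % k = r := by rw [hb, Nat.mul_add_mod, Nat.mod_eq_of_lt hr]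
    have h2 : b / k = w := by rw [hb, Nat.mul_add_div hk, Nat.div_eq_of_lt hr, Nat.add_zero]
    have h3 : idx k c b = w + if c < r then 1 else 0 := by rw [hb, idx_eq hc w hr]
    have h4 : idx k c (b + 1) = w + if c ≤ r then 1 else 0 := by
      rcases Nat.lt_or_ge (r + 1) k with h5 | h5
      · rw [hb, Nat.add_assoc, idx_eq hc w h5]
        congr 1
        simp only [Nat.lt_succ_iff]
      · have h6 : b + 1 = k * (w + 1) + 0 := by rw [hb, Nat.mul_add]; omega
        rw [h6, idx_eq hc (w + 1) hk, if_neg (by omega), if_pos (by omega)]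
    rw [h1, h2]
    by_cases h5 : r = c
    · have h6 : idx k c (b + 1) = idx k c b + 1 := by
        rw [h3, h4, if_neg (by omega : ¬ c < r), if_pos (by omega : c ≤ r)]
      have h7 : idx k c b = w := by rw [h3, if_neg (by omega : ¬ c < r)]; rfl
      rw [h6, cnt_succ_right _ (idx_mono h), h7]
      simp [h5]
    · have h6 : idx k c (b + 1) = idx k c b := by
        rw [h3, h4]
        by_cases h7 : c < r
        · rw [if_pos h7, if_pos h7.le]
        · rw [if_neg h7, if_neg (by omega)]
      rw [h6]
      simp [h5]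

lemma cnt_class' {k c : ℕ} (hc : c < k) {a b : ℕ} (h : a ≤ b) :
    cnt (fun j => j % k = c) a b = idx k c b - idx k c a := by
  have h1 : cnt (fun j => j % k = c) a b = cnt (fun j => j % k = c ∧ True) a b :=
    cnt_congr _ _ fun k _ _ => by simp
  rw [h1, cnt_class (fun _ => True) hc h]
  unfold cnt
  simp

/-- If two disjoint windows of the same length `l` have the same letter counts, then for `l < k`
the distance is `k w` with `w` divisible by the periods of the classes met by the window, and for
`l ≥ k` each period divides one of `⌊l/k⌋, ⌊l/k⌋ + 1, ⌊d/k⌋, ⌊d/k⌋ + 1`, `d` the distance. -/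
theorem class_gen {k : ℕ} {M : ℕ → ℕ} (hk : 2 ≤ k) (hM : ∀ c < k, 2 ≤ M c) {a b l : ℕ}
    (hl : 1 ≤ l) (hlb : a + l ≤ b)
    (h : ∀ c < k, ∀ z < M c, cnt (fun j => j % k = c ∧ (j / k) % M c = z) a (a + l) =
      cnt (fun j => j % k = c ∧ (j / k) % M c = z) b (b + l)) :
    (l < k ∧ ∃ w, b - a = k * w ∧ 1 ≤ w ∧ ∀ i < l, M ((a + i) % k) ∣ w) ∨
    (k ≤ l ∧ ∀ c < k, (M c ∣ l / k ∨ M c ∣ l / k + 1) ∨
      (M c ∣ (b - a) / k ∨ M c ∣ (b - a) / k + 1)) := by
  have hk0 : 0 < k := by omega
  -- class by class
  have hL : ∀ c < k, idx k c (a + l) - idx k c a = idx k c (b + l) - idx k c b := by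
    intro c hc
    have hMc := hM c hc
    rw [← sum_residues (M := M c) (by omega) (idx_mono (by omega : a ≤ a + l)),
      ← sum_residues (M := M c) (by omega) (idx_mono (by omega : b ≤ b + l))]
    refine Finset.sum_congr rfl fun z hz => ?_
    rw [← cnt_class (fun n => n % M c = z) hc (by omega : a ≤ a + l),
      ← cnt_class (fun n => n % M c = z) hc (by omega : b ≤ b + l)]
    exact h c hc z (Finset.mem_range.1 hz)
  have hmain : ∀ c < k, M c ∣ idx k c (a + l) - idx k c a ∨
      M c ∣ idx k c b - idx k c a := by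
    intro c hc
    have hMc := hM c hc
    obtain ⟨L, hL1⟩ := Nat.exists_eq_add_of_le (idx_mono (k := k) (c := c) (by omega : a ≤ a + l))
    have hL2 : idx k c (b + l) = idx k c b + L := by
      have h1 := hL c hc
      have h2 := idx_mono (k := k) (c := c) (by omega : b ≤ b + l)
      omega
    have h1 := residue_claim (M := M c) (by omega) (idx k c a) (idx k c b) L (by
      intro z hz
      have h3 := h c hc z hz
      rw [cnt_class (fun n => n % M c = z) hc (by omega : a ≤ a + l),
        cnt_class (fun n => n % M c = z) hc (by omega : b ≤ b + l), hL1, hL2] at h3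
      exact h3)
    rcases h1 with h1 | h1
    · left
      rw [hL1, Nat.add_sub_cancel_left]
      exact h1
    · right
      exact (Nat.modEq_iff_dvd' (idx_mono (by omega : a ≤ b))).1 h1
  obtain ⟨p, hp⟩ := Nat.exists_eq_add_of_le (by omega : a ≤ b)
  have hbp : b - a = p := by omega
  have hlp : l ≤ p := by omega
  rw [hbp]
  rcases Nat.lt_or_ge l k with hlk | hlk
  · -- short windows
    left
    refine ⟨hlk, ?_⟩
    have hmod : a % k = b % k := by
      have h1 := residue_claim hk0 a b l (by
        intro c hc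
        rw [cnt_class' hc (by omega : a ≤ a + l), cnt_class' hc (by omega : b ≤ b + l)]
        exact hL c hc)
      rcases h1 with h1 | h1
      · have := Nat.le_of_dvd hl h1
        omega
      · exact h1
    have hkp : k ∣ p := by
      have := (Nat.modEq_iff_dvd' (by omega : a ≤ b)).1 hmod
      rwa [hbp] at this
    obtain ⟨w, hw⟩ := hkp
    have hw1 : 1 ≤ w := by
      rcases Nat.eq_zero_or_pos w with h0 | h0
      · subst h0; omega
      · exact h0
    refine ⟨w, hw, hw1, ?_⟩
    intro i hi
    set c := (a + i) % k with hc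
    have hck : c < k := Nat.mod_lt _ hk0
    have hMc := hM c hck
    rcases hmain c hck with h1 | h1
    · exfalso
      have h2 : 0 < cnt (fun j => j % k = c) a (a + l) := by
        unfold cnt
        rw [Finset.card_pos]
        exact ⟨a + i, Finset.mem_filter.2 ⟨Finset.mem_Ico.2 ⟨by omega, by omega⟩, hc.symm⟩⟩
      rw [cnt_class' hck (by omega)] at h2
      have h3 : idx k c (a + l) - idx k c a ≤ 1 := by
        have h4 : l / k = 0 := Nat.div_eq_of_lt hlk
        rcases idx_diff (c := c) hk0 a l with h5 | h5 <;> rw [h5, h4] <;> omega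
      have h4 := Nat.le_of_dvd h2 h1
      omega
    · rw [hp, hw, idx_add_mul hk0, Nat.add_sub_cancel_left] at h1
      exact h1
  · -- long windows
    right
    refine ⟨hlk, ?_⟩
    intro c hc
    rcases hmain c hc with h4 | h4
    · left
      rcases idx_diff (c := c) hk0 a l with h5 | h5
      · left
        rwa [h5, Nat.add_sub_cancel_left] at h4
      · right
        rwa [h5, Nat.add_assoc, Nat.add_sub_cancel_left] at h4
    · right
      rw [hp] at h4
      rcases idx_diff (c := c) hk0 a p with h5 | h5
      · left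
        rwa [h5, Nat.add_sub_cancel_left] at h4
      · right
        rwa [h5, Nat.add_assoc, Nat.add_sub_cancel_left] at h4

end MPbbea99L
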