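import Pool.Agent.Lib.Pbbea99L.Thr

/-!
# MP_bbea99_co: the final bounds
-/

namespace MPbbea99L

open Finset MPbbea99

/-- a uniform bound for all `E` -/
lemma avoid_all {E : ℕ} (hE : 1 ≤ E) {n : ℕ} (hn : E + 1599999 ≤ n) :
    Avoid (1 + 1 / (E : ℝ)) n := by
  rcases Nat.lt_or_ge E 3 with h3 | h3
  · refine (avoid_log 3 n le_rfl ?_).mono ?_
    · have : Nat.log 2 3 = 1 := by norm_num [Nat.log_eq_iff]
      rw [this]
      omega
    · have hE0 : (0 : ℝ) < E := by exact_mod_cast hE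
      have h4 : (E : ℝ) ≤ (3 : ℕ) := by exact_mod_cast h3.le
      have := one_div_le_one_div_of_le hE0 h4
      linarith
  · rcases Nat.lt_or_ge E (2 ^ 25000) with h4 | h4
    · refine avoid_log E n h3 ?_
      have h5 : Nat.log 2 E < 25000 := Nat.log_lt_of_lt_pow (by omega) h4
      clear h4
      omega
    · exact avoid_thirty h4 (by clear h4; omega)

lemma ART_upper' {n : ℕ} (hn : 1600000 < n) : ART n ≤ 1 + 1 / ((n : ℝ) - 1600000) := by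
  have h1 := ART_le_of_avoid (n := n) (by omega)
    (avoid_all (E := n - 1600000) (by omega) (n := n) (by omega))
  rwa [Nat.cast_sub hn.le] at h1

lemma ART_upper_large {n : ℕ} (hn : 2 ^ 25001 ≤ n) : ART n ≤ 1 + 1 / ((n : ℝ) - 30) := by
  have h2 : (2 : ℕ) ^ 25001 = 2 ^ 25000 * 2 := pow_succ 2 25000
  have h3 : 2 ^ 5 ≤ 2 ^ 25000 := Nat.pow_le_pow_right (by norm_num) (by norm_num)
  have h4 : 2 ^ 25000 ≤ n - 30 ∧ 30 ≤ n := by
    generalize (2 : ℕ) ^ 25000 = B at *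
    omega
  have h1 := ART_le_of_avoid (n := n) (by omega) (avoid_thirty h4.1 (n := n) (by omega))
  rwa [Nat.cast_sub h4.2] at h1

lemma avoid_ceil {r : ℝ} (hr1 : 1 < r) {n : ℕ} (h : Avoid (1 + 1 / ((⌈1 / (r - 1)⌉₊ : ℕ) : ℝ)) n) :
    Avoid r n := by
  refine h.mono ?_
  have h0 : 0 < r - 1 := by linarith
  have h1 : 1 / (r - 1) ≤ ⌈1 / (r - 1)⌉₊ := Nat.le_ceil _
  have h2 : 0 < 1 / (r - 1) := by positivity
  have h3 : 1 / ((⌈1 / (r - 1)⌉₊ : ℕ) : ℝ) ≤ 1 / (1 / (r - 1)) := one_div_le_one_div_of_le h2 h1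
  rw [one_div_one_div] at h3
  linarith

lemma DART_upper' {r : ℝ} (hr1 : 1 < r) (hr2 : r ≤ 2) :
    (DART r : ℝ) ≤ 1 / (r - 1) + 1600000 := by
  have h0 : 0 < r - 1 := by linarith
  have hx1 : 1 ≤ 1 / (r - 1) := by rw [le_div_iff₀ h0]; linarith
  have hE : 1 ≤ ⌈1 / (r - 1)⌉₊ := Nat.one_le_ceil_iff.2 (by linarith)
  have h1 : DART r ≤ ⌈1 / (r - 1)⌉₊ + 1599999 :=
    Nat.sInf_le (avoid_ceil hr1 (avoid_all hE le_rfl))
  have h2 : (DART r : ℝ) ≤ ⌈1 / (r - 1)⌉₊ + 1599999 := by exact_mod_cast h1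
  have h3 := Nat.ceil_lt_add_one (a := 1 / (r - 1)) (by linarith)
  linarith

lemma DART_upper_large {r : ℝ} (hr1 : 1 < r) (hr : (2 : ℝ) ^ 25000 ≤ 1 / (r - 1)) :
    (DART r : ℝ) < 1 / (r - 1) + 31 := by
  have h0 : 0 < r - 1 := by linarith
  have hx0 : 0 < 1 / (r - 1) := by positivity
  have hE : 2 ^ 25000 ≤ ⌈1 / (r - 1)⌉₊ := by
    have h1 : ((2 ^ 25000 : ℕ) : ℝ) ≤ ⌈1 / (r - 1)⌉₊ := by
      rw [Nat.cast_pow, Nat.cast_ofNat]
      exact hr.trans (Nat.le_ceil _)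
    exact Nat.cast_le.1 h1
  have h1 : DART r ≤ ⌈1 / (r - 1)⌉₊ + 30 :=
    Nat.sInf_le (avoid_ceil hr1 (avoid_thirty hE le_rfl))
  have h2 : (DART r : ℝ) ≤ ⌈1 / (r - 1)⌉₊ + 30 := by exact_mod_cast h1
  have h3 := Nat.ceil_lt_add_one (a := 1 / (r - 1)) hx0.le
  linarith

end MPbbea99L
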