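import Pool.Agent.Lib.Pbbea99L.Sub

/-!
# MP_bbea99_co: scales

The positions of scale `s` are the `k` with `k ≡ q ^ s - 1 (mod q ^ (s + 1))`.
-/

namespace MPbbea99L

open Finset MPbbea99

/-- ones of the signal `j` at scale `s` -/
def One (q A : ℕ) (h : ℕ → ℕ) (s j k : ℕ) : Prop :=
  k % q ^ (s + 1) = q ^ s - 1 ∧ RR A (h s) j (k / q ^ (s + 1))

instance (q A : ℕ) (h : ℕ → ℕ) (s j : ℕ) : DecidablePred (One q A h s j) := fun _ => by
  unfold One; infer_instance

lemma off_lt {q : ℕ} (hq : 2 ≤ q) (s : ℕ) : q ^ s - 1 < q ^ (s + 1) := by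
  have h1 : 0 < q ^ s := Nat.pow_pos (by omega)
  have h2 : q ^ (s + 1) = q ^ s * q := pow_succ q s
  have h3 : q ^ s * 2 ≤ q ^ s * q := Nat.mul_le_mul_left _ hq
  omega

lemma scale_cmp {q A : ℕ} {h : ℕ → ℕ} (hq : 2 ≤ q) (hA : 0 < A) {s : ℕ} (hh : 0 < h s)
    (a p m : ℕ) (hr : (p + m) / (q ^ (s + 1) * (4 * A * h s)) + 2 < A) :
    ∃ j, j ≤ 1 ∧ cnt (One q A h s j) a (a + m) +
      (m / (q ^ (s + 1) * (4 * A)) - 2) * (p / (q ^ (s + 1) * (4 * A * h s))) ≤
      cnt (One q A h s j) (a + p) (a + p + m) + 8 * A := by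
  have hc := off_lt hq s
  have hw : 0 < q ^ (s + 1) := Nat.pow_pos (by omega)
  have hU : 0 < 4 * A := by omega
  have hB : 0 < 4 * A * h s := Nat.mul_pos hU hh
  obtain ⟨w, hw'⟩ : ∃ w, w = q ^ (s + 1) := ⟨_, rfl⟩
  obtain ⟨c, hc'⟩ : ∃ c, c = q ^ s - 1 := ⟨_, rfl⟩
  obtain ⟨H, hH⟩ : ∃ H, H = h s := ⟨_, rfl⟩
  have hone : ∀ j u v, u ≤ v → cnt (One q A h s j) u v = cnt (RR A H j) (idx w c u) (idx w c v) := by
    intro j u v huv
    rw [← cnt_class (RR A H j) (k := w) (c := c) (by rw [hw', hc']; exact hc) huv]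
    apply cnt_congr
    intro k _ _
    unfold One
    rw [← hw', ← hc', ← hH]
  rw [← hw'] at hw
  rw [← hw', ← hH] at hr ⊢
  rw [← hH] at hh hB
  obtain ⟨x, hx⟩ : ∃ x, x = idx w c a := ⟨_, rfl⟩
  obtain ⟨y, hy⟩ : ∃ y, y = idx w c (a + p) := ⟨_, rfl⟩
  obtain ⟨n, hn⟩ : ∃ n, idx w c (a + m) = x + n := by
    rw [hx]; exact Nat.exists_eq_add_of_le (idx_mono (by omega))
  obtain ⟨n', hn'⟩ : ∃ n', idx w c (a + p + m) = y + n' := by
    rw [hy]; exact Nat.exists_eq_add_of_le (idx_mono (by omega))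
  have hxy : x ≤ y := by rw [hx, hy]; exact idx_mono (by omega)
  have e1 : n = m / w ∨ n = m / w + 1 := by
    rcases idx_diff (c := c) hw a m with h1 | h1 <;> omega
  have e2 : n' = m / w ∨ n' = m / w + 1 := by
    rcases idx_diff (c := c) hw (a + p) m with h1 | h1 <;> omega
  have e3 : y - x = p / w ∨ y - x = p / w + 1 := by
    rcases idx_diff (c := c) hw a p with h1 | h1 <;> omega
  have e4 : y + n' ≤ x + (p + m) / w + 1 := by
    have h0 : a + p + m = a + (p + m) := by omega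
    rw [← hn', h0, hx]
    rcases idx_diff (c := c) hw a (p + m) with h1 | h1 <;> omega
  obtain ⟨j, hj, hlev⟩ := exists_lev (A := A) (x / (4 * A) / H) _ hr
  have hreg : (y + n') / (4 * A) / H ≤ x / (4 * A) / H + ((p + m) / (w * (4 * A * H)) + 2) := by
    rw [Nat.div_div_eq_div_mul, Nat.div_div_eq_div_mul, ← Nat.div_div_eq_div_mul (p + m)]
    calc (y + n') / (4 * A * H) ≤ (x + ((p + m) / w + 1)) / (4 * A * H) :=
          Nat.div_le_div_right (by omega)
      _ ≤ x / (4 * A * H) + ((p + m) / w + 1) / (4 * A * H) + 1 := by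
          rw [Nat.add_div hB]
          split_ifs <;> omega
      _ ≤ x / (4 * A * H) + ((p + m) / w / (4 * A * H) + 1) + 1 := by
          have : ((p + m) / w + 1) / (4 * A * H) ≤ (p + m) / w / (4 * A * H) + 1 := by
            calc ((p + m) / w + 1) / (4 * A * H) ≤ ((p + m) / w + 4 * A * H) / (4 * A * H) :=
                  Nat.div_le_div_right (by omega)
              _ = _ := Nat.add_div_right _ hB
          omega
      _ = _ := by ring
  have hmain := window_cmp (n := n) hA hh hj hxy (by omega) hlev hreg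
  refine ⟨j, hj, ?_⟩
  rw [hone j a (a + m) (by omega), hone j (a + p) (a + p + m) (by omega), hn, hn', ← hx, ← hy]
  refine le_trans ?_ hmain
  apply Nat.add_le_add_left
  apply Nat.mul_le_mul
  · have : m / (w * (4 * A)) ≤ n / (4 * A) := by
      rw [← Nat.div_div_eq_div_mul]
      exact Nat.div_le_div_right (by omega)
    omega
  · rw [← Nat.div_div_eq_div_mul]
    exact Nat.div_le_div_right (by omega)

lemma RR_periodic {A h j : ℕ} (hA : 0 < A) (hh : 0 < h) (i : ℕ) :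
    RR A h j (i + 8 * A ^ 2 * h) ↔ RR A h j i := by
  have e1 : 8 * A ^ 2 * h = 4 * A * (2 * A * h) := by ring
  have e2 : 8 * A ^ 2 * h = 4 * A * h * (2 * A) := by ring
  have h1 : (i + 8 * A ^ 2 * h) % (4 * A) = i % (4 * A) := by
    rw [e1, Nat.add_mul_mod_self_left]
  have h2 : (i + 8 * A ^ 2 * h) / (4 * A * h) = i / (4 * A * h) + 2 * A := by
    rw [e2, Nat.add_mul_div_left _ _ (Nat.mul_pos (by omega) hh)]
  have h3 : ∀ t, lev A j (t + 2 * A) = lev A j t := by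
    intro t
    unfold lev
    rw [show t + 2 * A + j * A = t + j * A + 2 * A by omega, Nat.add_mod_right]
  unfold RR
  rw [h1, h2, h3]

lemma scale_noise {q A : ℕ} {h : ℕ → ℕ} (hq : 2 ≤ q) (hA : 0 < A) {s : ℕ} (hh : 0 < h s)
    (j a b m : ℕ) :
    cnt (One q A h s j) a (a + m) ≤ cnt (One q A h s j) b (b + m) + 8 * A ^ 2 * h s := by
  have hc := off_lt hq s
  have hw : 0 < q ^ (s + 1) := Nat.pow_pos (by omega)
  obtain ⟨T, hT⟩ : ∃ T, T = q ^ (s + 1) * (8 * A ^ 2 * h s) := ⟨_, rfl⟩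
  have hT0 : 0 < T := by
    rw [hT]
    exact Nat.mul_pos hw (Nat.mul_pos (by positivity) hh)
  have hper : Function.Periodic (One q A h s j) T := by
    intro k
    simp only [eq_iff_iff]
    unfold One
    have h1 : (k + T) % q ^ (s + 1) = k % q ^ (s + 1) := by rw [hT, Nat.add_mul_mod_self_left]
    have h2 : (k + T) / q ^ (s + 1) = k / q ^ (s + 1) + 8 * A ^ 2 * h s := by
      rw [hT, Nat.add_mul_div_left _ _ hw]
    rw [h1, h2, RR_periodic hA hh]
  have h1 := cnt_period_diff (One q A h s j) hT0 hper b a m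
  have h2 : T.count (One q A h s j) ≤ 8 * A ^ 2 * h s := by
    calc T.count (One q A h s j) = cnt (One q A h s j) 0 T := by
          rw [Nat.count_eq_card_filter_range]
          unfold cnt
          rw [Finset.range_eq_Ico]
      _ ≤ cnt (fun k => k % q ^ (s + 1) = q ^ s - 1) 0 T := by
          apply cnt_mono
          intro k _ _ hk
          exact hk.1
      _ = 8 * A ^ 2 * h s := by
          rw [cnt_class' hc (Nat.zero_le _), hT]
          have := idx_add_mul (c := q ^ s - 1) hw 0 (8 * A ^ 2 * h s)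
          rw [Nat.zero_add] at this
          rw [this, Nat.add_sub_cancel_left]
  omega

lemma mod_pred_iff {w : ℕ} (hw : 0 < w) (k : ℕ) : w ∣ k + 1 ↔ k % w = w - 1 := by
  constructor
  · rintro ⟨d, hd⟩
    rcases Nat.eq_zero_or_pos d with h0 | h0
    · subst h0; omega
    · obtain ⟨e, rfl⟩ : ∃ e, d = e + 1 := ⟨d - 1, by omega⟩
      have : k = w * e + (w - 1) := by rw [Nat.mul_add] at hd; omega
      rw [this, Nat.mul_add_mod, Nat.mod_eq_of_lt (by omega)]
  · intro h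
    have h1 := Nat.div_add_mod k w
    refine ⟨k / w + 1, ?_⟩
    rw [Nat.mul_add]
    omega

lemma high_noise {q : ℕ} (hq : 2 ≤ q) (n a m : ℕ) :
    cnt (fun k => q ^ n ∣ k + 1) a (a + m) ≤ m / q ^ n + 1 := by
  have hw : 0 < q ^ n := Nat.pow_pos (by omega)
  have h1 : cnt (fun k => q ^ n ∣ k + 1) a (a + m) = cnt (fun k => k % q ^ n = q ^ n - 1) a (a + m) :=
    cnt_congr _ _ fun k _ _ => mod_pred_iff hw k
  rw [h1, cnt_class' (by omega) (by omega)]
  have h3 := idx_diff (c := q ^ n - 1) hw a m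
  generalize m / q ^ n = f at h3 ⊢
  omega

lemma scale_dvd {q : ℕ} (hq : 2 ≤ q) {s k : ℕ} (h : k % q ^ (s + 1) = q ^ s - 1) :
    q ^ s ∣ k + 1 ∧ ¬ q ^ (s + 1) ∣ k + 1 := by
  have hs : 0 < q ^ s := Nat.pow_pos (by omega)
  have hw : 0 < q ^ (s + 1) := Nat.pow_pos (by omega)
  have h2 : q ^ (s + 1) = q ^ s * q := pow_succ q s
  have h3 : q ^ s * 2 ≤ q ^ s * q := Nat.mul_le_mul_left _ hq
  constructor
  · have h1 := Nat.div_add_mod k (q ^ (s + 1))
    refine ⟨q * (k / q ^ (s + 1)) + 1, ?_⟩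
    rw [Nat.mul_add, ← mul_assoc, ← h2]
    omega
  · rw [mod_pred_iff hw, h]
    omega

lemma scale_unique {q : ℕ} (hq : 2 ≤ q) {s s' k : ℕ} (h : k % q ^ (s + 1) = q ^ s - 1)
    (h' : k % q ^ (s' + 1) = q ^ s' - 1) : s = s' := by
  obtain ⟨h1, h2⟩ := scale_dvd hq h
  obtain ⟨h3, h4⟩ := scale_dvd hq h'
  rcases Nat.lt_trichotomy s s' with h5 | h5 | h5
  · exact absurd ((pow_dvd_pow q h5).trans h3) h2
  · exact h5
  · exact absurd ((pow_dvd_pow q h5).trans h1) h4

lemma One.unique {q A : ℕ} (hq : 2 ≤ q) (hA : 0 < A) {h : ℕ → ℕ} {s s' j j' k : ℕ} (hj : j ≤ 1)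
    (hj' : j' ≤ 1) (h1 : One q A h s j k) (h2 : One q A h s' j' k) : s = s' ∧ j = j' := by
  have hs := scale_unique hq h1.1 h2.1
  subst hs
  refine ⟨rfl, ?_⟩
  obtain ⟨_, h3, h4⟩ := h1
  obtain ⟨_, h5, h6⟩ := h2
  have h7 := lev_lt hA j (k / q ^ (s + 1) / (4 * A * h s))
  have h8 := lev_lt hA j' (k / q ^ (s + 1) / (4 * A * h s))
  interval_cases j <;> interval_cases j' <;> omega

end MPbbea99L
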