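import Pool.Agent.Lib.Pbbea99L.Scl

/-!
# MP_bbea99_co: the structural letters

The structural letter `(g, j)` stands at the ones of the signal `j` at the scales `s ≡ g (mod G)`.
-/

namespace MPbbea99L

open Finset MPbbea99

/-- positions of the structural letter `(g, j)` -/
def Col (q A : ℕ) (h : ℕ → ℕ) (G g j k : ℕ) : Prop := ∃ s, s % G = g ∧ One q A h s j k

noncomputable instance (q A : ℕ) (h : ℕ → ℕ) (G g j : ℕ) : DecidablePred (Col q A h G g j) :=
  fun _ => Classical.dec _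

lemma col_upper {q A : ℕ} {h : ℕ → ℕ} (hq : 2 ≤ q) {G : ℕ} (hG : 0 < G) (s0 j a m : ℕ) :
    cnt (Col q A h G (s0 % G) j) a (a + m) ≤
      ∑ s ∈ (range (s0 + 1)).filter (fun s => s % G = s0 % G),
        cnt (One q A h s j) a (a + m) + (m / q ^ (s0 + G) + 1) := by
  classical
  refine le_trans ?_ (Nat.add_le_add_left (high_noise hq (s0 + G) a m) _)
  unfold cnt
  refine le_trans (Finset.card_le_card (t := ((range (s0 + 1)).filter
    (fun s => s % G = s0 % G)).biUnion (fun s => (Finset.Ico a (a + m)).filter (One q A h s j)) ∪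
    (Finset.Ico a (a + m)).filter (fun k => q ^ (s0 + G) ∣ k + 1)) ?_)
    ((Finset.card_union_le _ _).trans (Nat.add_le_add_right Finset.card_biUnion_le _))
  intro k hk
  rw [Finset.mem_filter] at hk
  obtain ⟨hk1, s, hs1, hs2⟩ := hk
  rw [Finset.mem_union]
  rcases Nat.lt_or_ge s (s0 + 1) with h1 | h1
  · left
    rw [Finset.mem_biUnion]
    exact ⟨s, Finset.mem_filter.2 ⟨Finset.mem_range.2 h1, hs1⟩, Finset.mem_filter.2 ⟨hk1, hs2⟩⟩
  · right
    rw [Finset.mem_filter]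
    refine ⟨hk1, (pow_dvd_pow q ?_).trans (scale_dvd hq hs2.1).1⟩
    -- s ≥ s0 + G
    have h2 : s0 ≡ s [MOD G] := hs1.symm
    have h3 := (Nat.modEq_iff_dvd' (by omega : s0 ≤ s)).1 h2
    have h4 := Nat.le_of_dvd (by omega) h3
    omega

lemma col_lower {q A : ℕ} {h : ℕ → ℕ} (hq : 2 ≤ q) (hA : 0 < A) (G s0 : ℕ) {j : ℕ} (hj : j ≤ 1)
    (a b : ℕ) :
    ∑ s ∈ (range (s0 + 1)).filter (fun s => s % G = s0 % G), cnt (One q A h s j) a b ≤
      cnt (Col q A h G (s0 % G) j) a b := by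
  classical
  unfold cnt
  rw [← Finset.card_biUnion]
  · apply Finset.card_le_card
    intro k hk
    rw [Finset.mem_biUnion] at hk
    obtain ⟨s, hs, hk⟩ := hk
    rw [Finset.mem_filter] at hs hk ⊢
    exact ⟨hk.1, s, hs.2, hk.2⟩
  · intro s _ s' _ hne
    rw [Function.onFun, Finset.disjoint_left]
    intro k h1 h2
    rw [Finset.mem_filter] at h1 h2
    exact hne (One.unique hq hA hj hj h1.2 h2.2).1

lemma col_cmp {q A : ℕ} {h : ℕ → ℕ} (hq : 2 ≤ q) (hA : 0 < A) (hh : ∀ s, 0 < h s) {G : ℕ}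
    (hG : 0 < G) (s0 a p m : ℕ) (hr : (p + m) / (q ^ (s0 + 1) * (4 * A * h s0)) + 2 < A) :
    ∃ j, j ≤ 1 ∧ cnt (Col q A h G (s0 % G) j) a (a + m) +
      (m / (q ^ (s0 + 1) * (4 * A)) - 2) * (p / (q ^ (s0 + 1) * (4 * A * h s0))) ≤
      cnt (Col q A h G (s0 % G) j) (a + p) (a + p + m) + 8 * A +
      ∑ s ∈ (range s0).filter (fun s => s % G = s0 % G), 8 * A ^ 2 * h s +
      (m / q ^ (s0 + G) + 1) := by
  obtain ⟨j, hj, h1⟩ := scale_cmp hq hA (hh s0) a p m hr
  refine ⟨j, hj, ?_⟩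
  have h2 := col_upper (A := A) (h := h) hq hG s0 j a m
  have h3 := col_lower (h := h) hq hA G s0 hj (a + p) (a + p + m)
  rw [Finset.range_add_one, Finset.filter_insert, if_pos rfl,
    Finset.sum_insert (by simp)] at h2 h3
  have h4 : ∑ s ∈ (range s0).filter (fun s => s % G = s0 % G), cnt (One q A h s j) a (a + m) ≤
      ∑ s ∈ (range s0).filter (fun s => s % G = s0 % G),
        cnt (One q A h s j) (a + p) (a + p + m) +
      ∑ s ∈ (range s0).filter (fun s => s % G = s0 % G), 8 * A ^ 2 * h s := by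
    rw [← Finset.sum_add_distrib]
    exact Finset.sum_le_sum fun s _ => scale_noise hq hA (hh s) j a (a + p) m
  omega

lemma geom_le {r : ℕ} (hr : 2 ≤ r) : ∀ M : ℕ, ∑ s ∈ range (M + 1), r ^ s ≤ 2 * r ^ M
  | 0 => by simp
  | M + 1 => by
      rw [Finset.sum_range_succ]
      have h1 := geom_le hr M
      have h2 : r ^ (M + 1) = r ^ M * r := pow_succ r M
      have h3 : r ^ M * 2 ≤ r ^ M * r := Nat.mul_le_mul_left _ hr
      omega

lemma noise_le {q : ℕ} (hq : 2 ≤ q) (s0 : ℕ) :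
    ∑ s ∈ (range s0).filter (fun s => s % 6 = s0 % 6), 8 * (q ^ 54) ^ 2 * q ^ (42 * s + 77) ≤
      if s0 < 6 then 0 else 16 * q ^ (42 * s0 - 67) := by
  split_ifs with h0
  · rw [Finset.filter_false_of_mem, Finset.sum_empty]
    intro s hs
    rw [Finset.mem_range] at hs
    omega
  · obtain ⟨M, rfl⟩ : ∃ M, s0 = M + 6 := ⟨s0 - 6, by omega⟩
    calc ∑ s ∈ (range (M + 6)).filter (fun s => s % 6 = (M + 6) % 6),
          8 * (q ^ 54) ^ 2 * q ^ (42 * s + 77)
        ≤ ∑ s ∈ range (M + 1), 8 * (q ^ 54) ^ 2 * q ^ (42 * s + 77) := by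
          apply Finset.sum_le_sum_of_subset
          intro s hs
          rw [Finset.mem_filter, Finset.mem_range] at hs
          rw [Finset.mem_range]
          omega
      _ = 8 * q ^ 185 * ∑ s ∈ range (M + 1), (q ^ 42) ^ s := by
          rw [Finset.mul_sum]
          refine Finset.sum_congr rfl fun s _ => ?_
          rw [pow_add, pow_mul]
          ring
      _ ≤ 8 * q ^ 185 * (2 * (q ^ 42) ^ M) :=
          Nat.mul_le_mul_left _ (geom_le (by
            calc 2 ≤ q := hq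
              _ = q ^ 1 := (pow_one q).symm
              _ ≤ q ^ 42 := Nat.pow_le_pow_right (by omega) (by norm_num)) M)
      _ = 16 * q ^ (42 * (M + 6) - 67) := by
          rw [← pow_mul, show 42 * (M + 6) - 67 = 185 + 42 * M by omega, pow_add]
          ring

lemma exists_scale (f : ℕ → ℕ) (hf : ∀ s, s < f s) {p : ℕ} (h0 : f 0 ≤ p) :
    ∃ s, f s ≤ p ∧ p < f (s + 1) := by
  by_contra hcon
  push Not at hcon
  have h1 : ∀ s, f s ≤ p := by
    intro s
    induction s with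
    | zero => exact h0
    | succ s ih => exact hcon s ih
  exact absurd (hf p) (Nat.not_lt.2 (h1 p))

/-- half amplitude -/
def AA (q : ℕ) : ℕ := q ^ 54
/-- number of subblocks of a block -/
def hh (q s : ℕ) : ℕ := q ^ (42 * s + 77)

theorem struct_lemma {q : ℕ} (hq : 100 ≤ q) (a p m : ℕ) (hm : 4 * q ^ 142 ≤ m) (hmp : m ≤ p)
    (hpm : p ≤ q ^ 143 * m) :
    ∃ g < 6, ∃ j ≤ 1, cnt (Col (q ^ 11) (AA q) (hh q) 6 g j) a (a + m) <
      cnt (Col (q ^ 11) (AA q) (hh q) 6 g j) (a + p) (a + p + m) := by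
  have hq0 : 0 < q := by omega
  have hq11 : 2 ≤ q ^ 11 := by
    calc 2 ≤ q := by omega
      _ = q ^ 1 := (pow_one q).symm
      _ ≤ q ^ 11 := Nat.pow_le_pow_right (by omega) (by norm_num)
  obtain ⟨s, hs1, hs2⟩ := exists_scale (fun s => 4 * q ^ (53 * s + 142)) (fun s => by
    have h1 : s < q ^ s := Nat.lt_pow_self (by omega)
    have h2 : q ^ s ≤ q ^ (53 * s + 142) := Nat.pow_le_pow_right hq0 (by omega)
    show s < 4 * q ^ (53 * s + 142)
    omega) (p := p) (by simpa using hm.trans hmp)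
  have hA : 0 < AA q := Nat.pow_pos hq0
  have hh0 : ∀ s, 0 < hh q s := fun s => Nat.pow_pos hq0
  have hbb : (q ^ 11) ^ (s + 1) * (4 * AA q * hh q s) = 4 * q ^ (53 * s + 142) := by
    unfold AA hh
    rw [← pow_mul, show 53 * s + 142 = 11 * (s + 1) + 54 + (42 * s + 77) by ring, pow_add, pow_add]
    ring
  have huu : (q ^ 11) ^ (s + 1) * (4 * AA q) = 4 * q ^ (11 * s + 65) := by
    unfold AA
    rw [← pow_mul, show 11 * s + 65 = 11 * (s + 1) + 54 by ring, pow_add q (11 * (s + 1)) 54]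
    ring
  have hb0 : 0 < 4 * q ^ (53 * s + 142) := by positivity
  have hu0 : 0 < 4 * q ^ (11 * s + 65) := by positivity
  have hr : (p + m) / ((q ^ 11) ^ (s + 1) * (4 * AA q * hh q s)) + 2 < AA q := by
    rw [hbb]
    have h1 : (p + m) / (4 * q ^ (53 * s + 142)) < 2 * q ^ 53 := by
      apply Nat.div_lt_of_lt_mul
      have h2 : 4 * q ^ (53 * s + 142) * (2 * q ^ 53) = 2 * (4 * q ^ (53 * (s + 1) + 142)) := by
        rw [show 53 * (s + 1) + 142 = (53 * s + 142) + 53 by ring, pow_add q (53 * s + 142) 53]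
        ring
      omega
    have h2 : AA q = q ^ 53 * q := by unfold AA; rw [← pow_succ]
    have h3 : q ^ 53 * 100 ≤ q ^ 53 * q := Nat.mul_le_mul_left _ hq
    have h4 : 0 < q ^ 53 := Nat.pow_pos hq0
    omega
  obtain ⟨j, hj, hmain⟩ := col_cmp hq11 hA hh0 (by norm_num : 0 < 6) s a p m hr
  refine ⟨s % 6, Nat.mod_lt _ (by norm_num), j, hj, ?_⟩
  rw [hbb, huu] at hmain
  have hnoise := noise_le (by omega : 2 ≤ q) s
  obtain ⟨N, hN⟩ : ∃ N, N = m / (4 * q ^ (11 * s + 65)) := ⟨_, rfl⟩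
  obtain ⟨x, hx⟩ : ∃ x, x = p / (4 * q ^ (53 * s + 142)) := ⟨_, rfl⟩
  rw [← hN, ← hx] at hmain
  have hx1 : 1 ≤ x := by rw [hx]; exact (Nat.one_le_div_iff hb0).2 hs1
  -- N is large
  obtain ⟨z, hz1, h8, h16, hNz⟩ : ∃ z, 1 ≤ z ∧ AA q ≤ z ∧
      (if s < 6 then 0 else 16 * q ^ (42 * s - 67)) ≤ 16 * z ∧ 100 * z ≤ N := by
    rcases Nat.lt_or_ge s 3 with h3 | h3
    · refine ⟨q ^ 54, Nat.one_le_pow _ _ hq0, le_rfl, ?_, ?_⟩
      · rw [if_pos (by omega)]; exact Nat.zero_le _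
      · rw [hN, Nat.le_div_iff_mul_le hu0]
        calc 100 * q ^ 54 * (4 * q ^ (11 * s + 65))
            ≤ q * q ^ 54 * (4 * q ^ 87) := by
              apply Nat.mul_le_mul
              · exact Nat.mul_le_mul_right _ hq
              · exact Nat.mul_le_mul_left _ (Nat.pow_le_pow_right hq0 (by omega))
          _ = 4 * q ^ 142 := by ring
          _ ≤ m := hm
    · refine ⟨q ^ (42 * s - 67), Nat.one_le_pow _ _ hq0, ?_, ?_, ?_⟩
      · exact Nat.pow_le_pow_right hq0 (by omega)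
      · split_ifs
        · exact Nat.zero_le _
        · exact le_rfl
      · have h1 : 4 * q ^ (11 * s + 65) * q ^ (42 * s - 66) ≤ m := by
          have h2 : q ^ 143 * (4 * q ^ (11 * s + 65) * q ^ (42 * s - 66)) =
              4 * q ^ (53 * s + 142) := by
            rw [show 53 * s + 142 = 143 + (11 * s + 65) + (42 * s - 66) by omega, pow_add, pow_add]
            ring
          have h3 : q ^ 143 * (4 * q ^ (11 * s + 65) * q ^ (42 * s - 66)) ≤ q ^ 143 * m := by
            rw [h2]; exact hs1.trans hpm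
          exact Nat.le_of_mul_le_mul_left h3 (Nat.pow_pos hq0)
        have h2 : q ^ (42 * s - 66) ≤ N := by
          rw [hN, Nat.le_div_iff_mul_le hu0, mul_comm]
          exact h1
        refine le_trans ?_ h2
        rw [show 42 * s - 66 = (42 * s - 67) + 1 by omega, pow_succ, mul_comm]
        exact Nat.mul_le_mul_left _ hq
  have hhigh : m / (q ^ 11) ^ (s + 6) ≤ N / 4 := by
    rw [hN, Nat.div_div_eq_div_mul, ← pow_mul]
    apply Nat.div_le_div_left
    · rw [show 11 * (s + 6) = (11 * s + 65) + 1 by ring, pow_succ q (11 * s + 65)]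
      calc 4 * q ^ (11 * s + 65) * 4 = q ^ (11 * s + 65) * 16 := by ring
        _ ≤ q ^ (11 * s + 65) * q := Nat.mul_le_mul_left _ (by omega)
    · positivity
  have hNx : N - 2 ≤ (N - 2) * x := Nat.le_mul_of_pos_right _ hx1
  have hnoise' : ∑ s ∈ (range s).filter (fun s' => s' % 6 = s % 6), 8 * AA q ^ 2 * hh q s ≤
      16 * z := hnoise.trans h16
  clear hnoise h16
  generalize (N - 2) * x = y at hmain hNx
  generalize m / (q ^ 11) ^ (s + 6) = v at hmain hhigh
  generalize AA q = A' at *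
  omega

end MPbbea99L
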