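import Pool.Agent.Lib.Pbbea99L.Cls

/-!
# MP_bbea99_co: sawtooth signals

Scale indices are cut into subblocks of length `4 A`, `h` consecutive subblocks form a block. In
every subblock of the block `t` the signal `j ∈ {0, 1}` has `lev A j t = (t + j A) mod 2 A` ones.
-/

namespace MPbbea99L

open Finset MPbbea99

/-- level of the signal `j` in the block `t` -/
def lev (A j t : ℕ) : ℕ := (t + j * A) % (2 * A)

/-- the ones of the signal `j` among the indices of a fixed scale -/
def RR (A h j i : ℕ) : Prop :=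
  2 * A * j ≤ i % (4 * A) ∧ i % (4 * A) < 2 * A * j + lev A j (i / (4 * A * h))

instance (A h j : ℕ) : DecidablePred (RR A h j) := fun _ => by
  unfold RR; infer_instance

lemma lev_lt {A : ℕ} (hA : 0 < A) (j t : ℕ) : lev A j t < 2 * A := Nat.mod_lt _ (by omega)

lemma lev_lin {A j t Δ e : ℕ} (h : lev A j t + Δ < 2 * A) (he : e ≤ Δ) :
    lev A j (t + e) = lev A j t + e := by
  unfold lev at *
  rw [show t + e + j * A = t + j * A + e by omega, Nat.add_mod, Nat.add_mod_mod,
    Nat.mod_eq_of_lt (by omega)]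

lemma exists_lev {A : ℕ} (t Δ : ℕ) (h : Δ < A) : ∃ j, j ≤ 1 ∧ lev A j t + Δ < 2 * A := by
  by_cases h0 : lev A 0 t + Δ < 2 * A
  · exact ⟨0, by omega, h0⟩
  · refine ⟨1, le_rfl, ?_⟩
    have h1 : lev A 0 t = t % (2 * A) := by unfold lev; rw [Nat.zero_mul, Nat.add_zero]
    have h2 : lev A 1 t = t % (2 * A) - A := by
      unfold lev
      have h3 := Nat.mod_lt t (by omega : 0 < 2 * A)
      rw [Nat.one_mul, Nat.add_mod, Nat.mod_eq_of_lt (by omega : A < 2 * A),
        show t % (2 * A) + A = (t % (2 * A) - A) + 2 * A by omega, Nat.add_mod_right,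
        Nat.mod_eq_of_lt (by omega)]
    have h3 := Nat.mod_lt t (by omega : 0 < 2 * A)
    omega

lemma sub_count {A j : ℕ} (h : ℕ) (hA : 0 < A) (hj : j ≤ 1) (σ : ℕ) :
    cnt (RR A h j) (4 * A * σ) (4 * A * σ + 4 * A) = lev A j (σ / h) := by
  have hlev : lev A j (σ / h) < 2 * A := lev_lt hA _ _
  have hjA : 2 * A * j ≤ 2 * A := by
    calc 2 * A * j ≤ 2 * A * 1 := Nat.mul_le_mul_left _ hj
      _ = 2 * A := by ring
  have h1 : (Finset.Ico (4 * A * σ) (4 * A * σ + 4 * A)).filter (RR A h j) =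
      Finset.Ico (4 * A * σ + 2 * A * j) (4 * A * σ + 2 * A * j + lev A j (σ / h)) := by
    ext i
    rw [Finset.mem_filter, Finset.mem_Ico, Finset.mem_Ico]
    have key : ∀ r < 4 * A, i = 4 * A * σ + r →
        (RR A h j i ↔ 2 * A * j ≤ r ∧ r < 2 * A * j + lev A j (σ / h)) := by
      intro r hr hi
      unfold RR
      have e1 : i % (4 * A) = r := by rw [hi, Nat.mul_add_mod, Nat.mod_eq_of_lt hr]
      have e2 : i / (4 * A * h) = σ / h := by
        rw [← Nat.div_div_eq_div_mul, hi, Nat.mul_add_div (by omega), Nat.div_eq_of_lt hr,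
          Nat.add_zero]
      rw [e1, e2]
    constructor
    · rintro ⟨⟨h2, h3⟩, h4⟩
      have h5 := (key (i - 4 * A * σ) (by omega) (by omega)).1 h4
      omega
    · rintro ⟨h2, h3⟩
      have h5 := (key (i - 4 * A * σ) (by omega) (by omega)).2 (by omega)
      exact ⟨⟨by omega, by omega⟩, h5⟩
  unfold cnt
  rw [h1, Nat.card_Ico]
  omega

lemma cnt_blocks (P : ℕ → Prop) [DecidablePred P] (U x : ℕ) : ∀ N : ℕ,
    cnt P (U * x) (U * (x + N)) = ∑ i ∈ range N, cnt P (U * (x + i)) (U * (x + i) + U)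
  | 0 => by simp [cnt_self]
  | N + 1 => by
      have e : U * (x + (N + 1)) = U * (x + N) + U := by ring
      rw [Finset.sum_range_succ, ← cnt_blocks P U x N, e,
        ← cnt_add P (Nat.mul_le_mul_left _ (by omega)) (by omega)]

lemma cnt_anti_left (P : ℕ → Prop) [DecidablePred P] {a b c : ℕ} (hab : a ≤ b) :
    cnt P b c ≤ cnt P a c := by
  unfold cnt
  exact Finset.card_le_card (Finset.filter_subset_filter _ (Finset.Ico_subset_Ico_left hab))

lemma upper_sum {A j : ℕ} (h : ℕ) (hA : 0 < A) (hj : j ≤ 1) (x n : ℕ) :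
    cnt (RR A h j) x (x + n) ≤
      ∑ i ∈ range (n / (4 * A) + 2), lev A j ((x / (4 * A) + i) / h) := by
  have hU : 0 < 4 * A := by omega
  have h1 := Nat.div_add_mod x (4 * A)
  have h2 := Nat.mod_lt x hU
  have h3 := Nat.div_add_mod n (4 * A)
  have h4 := Nat.mod_lt n hU
  have e : ∑ i ∈ range (n / (4 * A) + 2), lev A j ((x / (4 * A) + i) / h) =
      cnt (RR A h j) (4 * A * (x / (4 * A))) (4 * A * (x / (4 * A) + (n / (4 * A) + 2))) := by
    rw [cnt_blocks]
    exact Finset.sum_congr rfl fun i _ => (sub_count h hA hj _).symm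
  rw [e]
  refine (cnt_anti_left _ (by omega)).trans (cnt_mono_right _ ?_)
  rw [Nat.mul_add, Nat.mul_add]
  omega

lemma lower_sum {A j : ℕ} (h : ℕ) (hA : 0 < A) (hj : j ≤ 1) (y n : ℕ) :
    ∑ i ∈ range (n / (4 * A) - 1), lev A j ((y / (4 * A) + 1 + i) / h) ≤
      cnt (RR A h j) y (y + n) := by
  have hU : 0 < 4 * A := by omega
  have h1 := Nat.div_add_mod y (4 * A)
  have h2 := Nat.mod_lt y hU
  have h3 := Nat.div_add_mod n (4 * A)
  rcases Nat.eq_zero_or_pos (n / (4 * A)) with h0 | h0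
  · rw [h0]; simp
  obtain ⟨N, hN⟩ : ∃ N, n / (4 * A) = N + 1 := ⟨n / (4 * A) - 1, by omega⟩
  rw [hN, Nat.add_sub_cancel]
  have e : ∑ i ∈ range N, lev A j ((y / (4 * A) + 1 + i) / h) =
      cnt (RR A h j) (4 * A * (y / (4 * A) + 1)) (4 * A * (y / (4 * A) + 1 + N)) := by
    rw [cnt_blocks]
    exact Finset.sum_congr rfl fun i _ => (sub_count h hA hj _).symm
  rw [e]
  rw [hN] at h3
  refine (cnt_mono_right _ ?_).trans (cnt_anti_left _ ?_)
  · have e1 : 4 * A * (y / (4 * A) + 1 + N) = 4 * A * (y / (4 * A)) + 4 * A * (N + 1) := by ring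
    omega
  · have e1 : 4 * A * (y / (4 * A) + 1) = 4 * A * (y / (4 * A)) + 4 * A := by ring
    omega

/-- comparison of two windows in a region where the level grows -/
lemma window_cmp {A h j x y n n' Δ : ℕ} (hA : 0 < A) (hh : 0 < h) (hj : j ≤ 1) (hxy : x ≤ y)
    (hn : n ≤ n' + 1) (hΔ : lev A j (x / (4 * A) / h) + Δ < 2 * A)
    (hreg : (y + n') / (4 * A) / h ≤ x / (4 * A) / h + Δ) :
    cnt (RR A h j) x (x + n) + (n / (4 * A) - 2) * ((y - x) / (4 * A * h)) ≤
      cnt (RR A h j) y (y + n') + 8 * A := by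
  have hU : 0 < 4 * A := by omega
  set N := n / (4 * A) with hN
  set N' := n' / (4 * A) with hN'
  have hNN : N ≤ N' + 1 := by
    calc N ≤ (n' + 4 * A) / (4 * A) := Nat.div_le_div_right (by omega)
      _ = N' + 1 := Nat.add_div_right _ hU
  obtain ⟨D, hD⟩ : ∃ D, D = (y - x) / (4 * A * h) := ⟨_, rfl⟩
  rw [← hD]
  set K := N - 2 with hK
  have h1 := upper_sum h hA hj x n
  have h2 := lower_sum h hA hj y n'
  rw [← hN] at h1
  rw [← hN'] at h2
  have h3 : ∑ i ∈ range (N + 2), lev A j ((x / (4 * A) + i) / h) ≤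
      ∑ i ∈ range K, lev A j ((x / (4 * A) + i) / h) + 8 * A := by
    calc ∑ i ∈ range (N + 2), lev A j ((x / (4 * A) + i) / h)
        ≤ ∑ i ∈ range (K + 4), lev A j ((x / (4 * A) + i) / h) :=
          Finset.sum_le_sum_of_subset (Finset.range_mono (by omega))
      _ ≤ _ := by
          rw [Finset.sum_range_succ, Finset.sum_range_succ, Finset.sum_range_succ,
            Finset.sum_range_succ]
          have e1 := lev_lt hA j ((x / (4 * A) + K) / h)
          have e2 := lev_lt hA j ((x / (4 * A) + (K + 1)) / h)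
          have e3 := lev_lt hA j ((x / (4 * A) + (K + 2)) / h)
          have e4 := lev_lt hA j ((x / (4 * A) + (K + 3)) / h)
          omega
  have h4 : ∑ i ∈ range K, lev A j ((y / (4 * A) + 1 + i) / h) ≤
      ∑ i ∈ range (N' - 1), lev A j ((y / (4 * A) + 1 + i) / h) :=
    Finset.sum_le_sum_of_subset (Finset.range_mono (by omega))
  have h5 : ∑ i ∈ range K, lev A j ((x / (4 * A) + i) / h) + K * D ≤
      ∑ i ∈ range K, lev A j ((y / (4 * A) + 1 + i) / h) := by
    have e : K * D = ∑ i ∈ range K, D := by simp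
    rw [e, ← Finset.sum_add_distrib]
    refine Finset.sum_le_sum fun i hi => ?_
    rw [Finset.mem_range] at hi
    -- shifted subblocks
    have hyx : x / (4 * A) + h * D ≤ y / (4 * A) := by
      have e1 : 4 * A * h * D ≤ y - x := by
        rw [hD]; exact Nat.mul_div_le _ _
      calc x / (4 * A) + h * D = (x + 4 * A * (h * D)) / (4 * A) :=
            (Nat.add_mul_div_left _ _ hU).symm
        _ ≤ y / (4 * A) := Nat.div_le_div_right (by
            have e2 : 4 * A * (h * D) = 4 * A * h * D := by ring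
            omega)
    have hs : (x / (4 * A) + i) / h + D ≤ (y / (4 * A) + 1 + i) / h := by
      rw [← Nat.add_mul_div_left _ _ hh]
      exact Nat.div_le_div_right (by omega)
    have ht0 : x / (4 * A) / h ≤ (x / (4 * A) + i) / h := Nat.div_le_div_right (by omega)
    have ht1 : (y / (4 * A) + 1 + i) / h ≤ x / (4 * A) / h + Δ := by
      refine le_trans (Nat.div_le_div_right ?_) hreg
      have e1 : y / (4 * A) + N' ≤ (y + n') / (4 * A) := by
        rw [hN']; exact Nat.div_add_div_le_add_div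
      omega
    obtain ⟨e, he⟩ := Nat.exists_eq_add_of_le ht0
    obtain ⟨e', he'⟩ := Nat.exists_eq_add_of_le (ht0.trans (le_trans (Nat.le_add_right _ D) hs))
    rw [he, lev_lin hΔ (by omega), he', lev_lin hΔ (by omega)]
    omega
  omega

end MPbbea99L
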