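import Pool.Agent.Lib.Pbbea99L.Win

/-!
# MP_bbea99_co: thresholds
-/

namespace MPbbea99L

open Finset MPbbea99

/-- from an infinite word to the threshold -/
theorem avoid_of_window {β : Type} [Fintype β] [DecidableEq β] (W : ℕ → β) (E n : ℕ) (hE : 1 ≤ E)
    (hcard : Fintype.card β ≤ n)
    (hW : ∀ A m p : ℕ, 1 ≤ m → m ≤ p → p ≤ m * E →
      (∀ c, cnt (fun i => W i = c) A (A + m) = cnt (fun i => W i = c) (A + p) (A + p + m)) →
      False) : Avoid (1 + 1 / (E : ℝ)) n := by
  classical
  unfold Avoid
  apply Set.Infinite.of_image List.length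
  apply Set.Infinite.mono (s := Set.univ) _ Set.infinite_univ
  intro N _
  have hcard' : Fintype.card β ≤ Fintype.card (Fin n) := by rwa [Fintype.card_fin]
  obtain ⟨f⟩ := Function.Embedding.nonempty_of_card_le hcard'
  let V : ℕ → Fin n := fun i => f (W i)
  refine ⟨(List.range N).map V, ?_, by simp⟩
  rintro r hr1 hr2 hr3 ⟨u, v, u', ⟨s, t, hst⟩, hperm, hlen⟩
  have hul : u'.length = u.length := hperm.length_eq.symm
  -- lengths
  have htot : s.length + (u.length + v.length + u.length) + t.length = N := by
    have := congrArg List.length hst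
    simp only [List.length_append, List.length_map, List.length_range, hul] at this
    omega
  set A := s.length with hA
  set m := u.length with hm
  set p := m + v.length with hp
  -- exponent bounds
  have hlen' : ((p : ℝ) + m) / p = r := by
    rw [← hlen]
    simp only [List.length_append, hp, ← hm]
    push_cast
    ring
  have hp0 : (0 : ℝ) < p := by
    rcases Nat.eq_zero_or_pos p with h0 | h0
    · rw [h0] at hlen'
      simp only [Nat.cast_zero, div_zero] at hlen'
      linarith
    · exact_mod_cast h0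
  have hE0 : (0 : ℝ) < E := by
    have : 0 < E := by omega
    exact_mod_cast this
  have hr : r = 1 + m / p := by
    rw [← hlen']
    field_simp
  have hm1 : 1 ≤ m := by
    rcases Nat.eq_zero_or_pos m with h0 | h0
    · rw [h0] at hr
      simp at hr
      linarith
    · exact h0
  have hpE : p ≤ m * E := by
    have h1 : 1 / (E : ℝ) ≤ m / p := by linarith
    rw [div_le_div_iff₀ hE0 hp0] at h1
    have h2 : (p : ℝ) ≤ m * E := by linarith
    exact_mod_cast h2
  -- windows
  have hu : ∀ i (hi : i < m), u[i]'hi = V (A + i) := by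
    intro i hi
    have h1 : (s ++ (u ++ v ++ u') ++ t)[A + i]? = ((List.range N).map V)[A + i]? := by rw [hst]
    rw [List.append_assoc, List.getElem?_append_right (by omega)] at h1
    have e : A + i - s.length = i := by omega
    rw [e, List.append_assoc, List.append_assoc, List.getElem?_append_left hi] at h1
    rw [List.getElem?_eq_getElem hi] at h1
    rw [List.getElem?_map, List.getElem?_range (by omega)] at h1
    simpa using h1
  have hu' : ∀ i (hi : i < m), u'[i]'(by omega) = V (A + p + i) := by
    intro i hi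
    have h1 : (s ++ (u ++ v ++ u') ++ t)[A + p + i]? = ((List.range N).map V)[A + p + i]? := by
      rw [hst]
    rw [List.append_assoc, List.getElem?_append_right (by omega)] at h1
    have e : A + p + i - s.length = p + i := by omega
    rw [e, List.append_assoc, List.getElem?_append_right (by
      rw [List.length_append]; omega)] at h1
    have e2 : p + i - (u ++ v).length = i := by rw [List.length_append]; omega
    rw [e2, List.getElem?_append_left (by omega)] at h1
    rw [List.getElem?_eq_getElem (by omega)] at h1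
    rw [List.getElem?_map, List.getElem?_range (by omega)] at h1
    simpa using h1
  have hcount : ∀ (l : List (Fin n)) (B : ℕ) (hl : ∀ i (hi : i < l.length), l[i] = V (B + i))
      (c : Fin n), l.count c = cnt (fun i => V i = c) B (B + l.length) := by
    intro l
    induction l with
    | nil => intro B _ c; simp [cnt_self]
    | cons x l ih =>
      intro B hl c
      have h1 : ∀ i (hi : i < l.length), l[i] = V (B + 1 + i) := by
        intro i hi
        have := hl (i + 1) (by simp; omega)
        simp only [List.getElem_cons_succ] at this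
        rw [this]
        congr 1
        ring
      have h2 := ih (B + 1) h1 c
      have h3 := hl 0 (by simp)
      simp only [List.getElem_cons_zero, Nat.add_zero] at h3
      rw [List.count_cons, h2, List.length_cons,
        cnt_add (fun i => V i = c) (a := B) (b := B + 1) (c := B + (l.length + 1)) (by omega)
          (by omega), cnt_succ_right _ (le_refl B), cnt_self, ← h3]
      have e : B + 1 + l.length = B + (l.length + 1) := by ring
      rw [e, Nat.add_comm, Nat.zero_add]
      congr 1
      by_cases hc : x = c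
      · simp [hc]
      · simp [hc]
  apply hW A m p hm1 (by omega) hpE
  intro c
  have h1 := hcount u A (fun i hi => hu i hi) (f c)
  have h2 := hcount u' (A + p) (fun i hi => hu' i (by omega)) (f c)
  rw [hperm.count_eq (f c), h2, hul] at h1
  have h3 : ∀ a b, cnt (fun i => W i = c) a b = cnt (fun i => V i = f c) a b := by
    intro a b
    apply cnt_congr
    intro k _ _
    exact (f.injective.eq_iff).symm
  rw [h3, h3]
  exact h1.symm

/-- the base of the scales -/
lemma exists_base {E : ℕ} (hE : 2 ^ 25000 ≤ E) : ∃ q : ℕ, 2 ^ 170 ≤ q ∧ 2 * E ≤ q ^ 143 ∧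
    q ^ 143 ≤ 2 ^ 144 * E := by
  have hex : ∃ q : ℕ, 2 * E ≤ q ^ 143 := by
    refine ⟨2 * E, ?_⟩
    calc 2 * E = (2 * E) ^ 1 := (pow_one _).symm
      _ ≤ (2 * E) ^ 143 := Nat.pow_le_pow_right (by
          have : 0 < 2 ^ 25000 := Nat.pow_pos (by norm_num)
          omega) (by norm_num)
  classical
  obtain ⟨q, hq⟩ : ∃ q, q = Nat.find hex := ⟨_, rfl⟩
  have h1 : 2 * E ≤ q ^ 143 := by rw [hq]; exact Nat.find_spec hex
  have hq170 : 2 ^ 170 ≤ q := by
    by_contra hcon
    push Not at hcon
    have h2 : q ^ 143 ≤ (2 ^ 170) ^ 143 := Nat.pow_le_pow_left hcon.le 143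
    have h3 : ((2 : ℕ) ^ 170) ^ 143 ≤ 2 ^ 25000 := by
      rw [← pow_mul]
      exact Nat.pow_le_pow_right (by norm_num) (by norm_num)
    have h4 : 0 < 2 ^ 25000 := Nat.pow_pos (by norm_num)
    generalize (2 : ℕ) ^ 25000 = B at *
    omega
  refine ⟨q, hq170, h1, ?_⟩
  have hq1 : 1 ≤ q := le_trans (Nat.one_le_pow _ _ (by norm_num)) hq170
  have h2 : (q - 1) ^ 143 < 2 * E := by
    have := Nat.find_min hex (m := q - 1) (by omega)
    omega
  have hq2 : 2 ≤ q := by
    refine le_trans ?_ hq170
    calc (2 : ℕ) = 2 ^ 1 := (pow_one 2).symm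
      _ ≤ 2 ^ 170 := Nat.pow_le_pow_right (by norm_num) (by norm_num)
  calc q ^ 143 ≤ (2 * (q - 1)) ^ 143 := Nat.pow_le_pow_left (by omega) 143
    _ = 2 ^ 143 * (q - 1) ^ 143 := by rw [mul_pow]
    _ ≤ 2 ^ 143 * (2 * E) := Nat.mul_le_mul_left _ h2.le
    _ = 2 ^ 144 * E := by ring

/-- thirty additional letters suffice -/
theorem avoid_thirty {E : ℕ} (hE : 2 ^ 25000 ≤ E) {n : ℕ} (hn : E + 30 ≤ n) :
    Avoid (1 + 1 / (E : ℝ)) n := by
  obtain ⟨q, hq170, hqE, hqE'⟩ := exists_base hE
  have hEbig : 2 ^ 20 ≤ E := by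
    refine le_trans ?_ hE
    exact Nat.pow_le_pow_right (by norm_num) (by norm_num)
  clear hE
  have hE1 : 1048576 ≤ E := by
    have : (2 : ℕ) ^ 20 = 1048576 := by norm_num
    omega
  have hq100 : 100 ≤ q := by
    refine le_trans ?_ hq170
    calc (100 : ℕ) ≤ 2 ^ 7 := by norm_num
      _ ≤ 2 ^ 170 := Nat.pow_le_pow_right (by norm_num) (by norm_num)
  obtain ⟨Q, hQ⟩ : ∃ Q, Q = (E + 5) / 4 := ⟨_, rfl⟩
  have hQ1 : E + 2 ≤ 4 * Q := by omega
  have hQ2 : 4 * Q ≤ E + 5 := by omega
  have hQ0 : 0 < Q := by omega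
  -- numerical conditions
  have hM : 2 ^ 170 * (4 * q ^ 142) ≤ 2 ^ 146 * E := by
    calc 2 ^ 170 * (4 * q ^ 142) ≤ q * (4 * q ^ 142) := Nat.mul_le_mul_right _ hq170
      _ = 4 * q ^ 143 := by ring
      _ ≤ 4 * (2 ^ 144 * E) := Nat.mul_le_mul_left _ hqE'
      _ = 2 ^ 146 * E := by ring
  obtain ⟨M, hM'⟩ : ∃ M, M = 4 * q ^ 142 := ⟨_, rfl⟩
  rw [← hM'] at hM
  have hM2 : 2 ^ 24 * M ≤ E := by
    have h1 : 2 ^ 146 * (2 ^ 24 * M) ≤ 2 ^ 146 * E := by
      calc 2 ^ 146 * (2 ^ 24 * M) = 2 ^ 170 * M := by ring
        _ ≤ _ := hM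
    exact Nat.le_of_mul_le_mul_left h1 (Nat.pow_pos (by norm_num))
  have hM3 : 16777216 * M ≤ E := by
    have : (2 : ℕ) ^ 24 = 16777216 := by norm_num
    rwa [this] at hM2
  have hx : 12 * ((E + 1) * (4 * q ^ 142)) ≤ Q * Q := by
    rw [← hM']
    have h1 : (E + 1) * M ≤ (4 * Q) * M := Nat.mul_le_mul_right _ (by omega)
    have h2 : Q * (16777216 * M) ≤ Q * (4 * Q) := Nat.mul_le_mul_left _ (by omega)
    nlinarith
  have hy : 1000 * (E * ((E + 1) * (4 * q ^ 142))) ≤ Q * Q * Q := by
    rw [← hM']
    have h1 : E * ((E + 1) * M) ≤ (4 * Q) * ((4 * Q) * M) :=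
      Nat.mul_le_mul (by omega) (Nat.mul_le_mul_right _ (by omega))
    have h2 : Q * Q * (16777216 * M) ≤ Q * Q * (4 * Q) := Nat.mul_le_mul_left _ (by omega)
    nlinarith
  classical
  refine avoid_of_window (WW E q Q hQ0) E n (by omega) (by rw [card_Let]; omega) ?_
  intro A m p hm hmp hpm h
  exact window (by omega) hQ0 hQ1 (by omega) hq100 hqE hx hy A m p hm hmp hpm h

/-- two equal letters -/
lemma enc_single {n : ℕ} (w : List (Fin n)) {i j : ℕ} (hij : i < j) (hj : j < w.length)
    (h : w[i]'(hij.trans hj) = w[j]) : Encounters w (1 + 1 / ((j - i : ℕ) : ℝ)) := by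
  set d := j - i with hd
  have hd0 : (0 : ℝ) < d := by
    have : 0 < d := by omega
    exact_mod_cast this
  have hi : i < w.length := hij.trans hj
  refine ⟨[w[i]'hi], (w.drop (i + 1)).take (d - 1), [w[j]'hj], ?_, ?_, ?_⟩
  · refine ⟨w.take i, w.drop (j + 1), ?_⟩
    have e1 : w.drop i = w[i]'hi :: w.drop (i + 1) := List.drop_eq_getElem_cons hi
    have e2 : w.drop (i + 1) = (w.drop (i + 1)).take (d - 1) ++ w.drop j := by
      conv_lhs => rw [← List.take_append_drop (d - 1) (w.drop (i + 1)), List.drop_drop]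
      congr 2
      omega
    have e3 : w.drop j = w[j]'hj :: w.drop (j + 1) := List.drop_eq_getElem_cons hj
    calc w.take i ++ ([w[i]'hi] ++ (w.drop (i + 1)).take (d - 1) ++ [w[j]'hj]) ++ w.drop (j + 1)
        = w.take i ++ (w[i]'hi :: ((w.drop (i + 1)).take (d - 1) ++
          (w[j]'hj :: w.drop (j + 1)))) := by simp
      _ = w.take i ++ w.drop i := by rw [← e3, ← e2, ← e1]
      _ = w := List.take_append_drop _ _
  · rw [h]
  · have hl : ((w.drop (i + 1)).take (d - 1)).length = d - 1 := by
      rw [List.length_take, List.length_drop]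
      omega
    simp only [List.length_append, List.length_singleton, hl]
    have e : 1 + (d - 1) = d := by omega
    rw [e]
    push_cast
    field_simp

/-- squares -/
lemma enc_square {n : ℕ} (w : List (Fin n)) {k : ℕ} (hk : 1 ≤ k) (hw : 2 * k ≤ w.length)
    (h : ∀ i (hi : i < k), w[i]'(by omega) = w[k + i]'(by omega)) : Encounters w 2 := by
  have hl1 : (w.take k).length = k := by rw [List.length_take]; omega
  refine ⟨w.take k, [], (w.drop k).take k, ?_, ?_, ?_⟩
  · refine ⟨[], w.drop (2 * k), ?_⟩
    have e : w.drop k = (w.drop k).take k ++ w.drop (2 * k) := by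
      conv_lhs => rw [← List.take_append_drop k (w.drop k), List.drop_drop]
      congr 2
      omega
    rw [List.append_nil, List.nil_append, List.append_assoc, ← e, List.take_append_drop]
  · have : w.take k = (w.drop k).take k := by
      apply List.ext_getElem
      · rw [hl1, List.length_take, List.length_drop]; omega
      · intro i h1 h2
        rw [List.getElem_take, List.getElem_take, List.getElem_drop]
        exact h i (by omega)
    rw [← this]
  · simp only [List.length_append, List.length_nil, hl1, Nat.add_zero]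
    have hk0 : (k : ℝ) ≠ 0 := by
      have : k ≠ 0 := by omega
      exact_mod_cast this
    push_cast
    field_simp
    norm_num

/-- words avoiding `y^r`, `r ≥ s`, with `s ≤ 1 + 1/(n-1)` are short -/
theorem not_avoid' (s : ℝ) (n : ℕ) (hn : 2 ≤ n) (hs : ((n : ℝ) - 1) * (s - 1) ≤ 1) :
    ¬ Avoid s n := by
  unfold Avoid
  rw [Set.not_infinite]
  have hfin : {w : List (Fin n) | w.length < 2 * n}.Finite := List.finite_length_lt (Fin n) (2 * n)
  apply hfin.subset
  intro w hw
  simp only [Set.mem_ofPred_eq]
  by_contra hlen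
  push Not at hlen
  have hn1 : (0 : ℝ) < (n : ℝ) - 1 := by
    have : (2 : ℝ) ≤ n := by exact_mod_cast hn
    linarith
  have hs' : s ≤ 1 + 1 / ((n : ℝ) - 1) := by
    have : s - 1 ≤ 1 / ((n : ℝ) - 1) := by
      rw [le_div_iff₀ hn1]; linarith
    linarith
  -- equal letters are far apart
  have hfar : ∀ i j (hij : i < j) (hj : j < w.length), j < i + n → w[i]'(hij.trans hj) ≠ w[j] := by
    intro i j hij hj hjn heq
    have h1 := enc_single w hij hj heq
    set d := j - i with hd
    have hd1 : 1 ≤ d := by omega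
    have hd1' : (1 : ℝ) ≤ d := by exact_mod_cast hd1
    have hdn : (d : ℝ) ≤ (n : ℝ) - 1 := by
      have : d + 1 ≤ n := by omega
      have : ((d + 1 : ℕ) : ℝ) ≤ n := by exact_mod_cast this
      push_cast at this
      linarith
    refine hw _ ?_ ?_ ?_ h1
    · have : 1 / ((n : ℝ) - 1) ≤ 1 / d := one_div_le_one_div_of_le (by linarith) hdn
      linarith
    · have : 0 < 1 / (d : ℝ) := by positivity
      linarith
    · have : 1 / (d : ℝ) ≤ 1 := by
        rw [div_le_one (by linarith)]
        exact hd1'
      linarith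
  refine hw 2 ?_ (by norm_num) le_rfl (enc_square w (k := n) (by omega) hlen ?_)
  · have : 1 / ((n : ℝ) - 1) ≤ 1 := by
      rw [div_le_one hn1]
      have : (2 : ℝ) ≤ n := by exact_mod_cast hn
      linarith
    linarith
  · intro i hi
    -- the window of length n starting at i contains all letters
    let f : Fin n → Fin n := fun k => w[i + k.val]'(by have := k.isLt; omega)
    have hf : Function.Injective f := by
      intro k k' hkk
      by_contra hne
      have hne' : k.val ≠ k'.val := fun h => hne (Fin.ext h)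
      have hk := k.isLt
      have hk' := k'.isLt
      rcases Nat.lt_or_gt_of_ne hne' with h1 | h1
      · exact hfar (i + k.val) (i + k'.val) (by omega) (by omega) (by omega) hkk
      · exact hfar (i + k'.val) (i + k.val) (by omega) (by omega) (by omega) hkk.symm
    have hsurj := Finite.surjective_of_injective hf
    obtain ⟨k, hk⟩ := hsurj (w[n + i]'(by omega))
    have hkn := k.isLt
    rcases Nat.eq_zero_or_pos k.val with h0 | h0
    · have : f k = w[i]'(by omega) := by
        show w[i + k.val]'_ = _
        congr 1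
        omega
      rw [← hk, this]
    · exfalso
      exact hfar (i + k.val) (n + i) (by omega) (by omega) (by omega) hk

lemma ART_lower' {n : ℕ} (hn : 2 ≤ n) : 1 + 1 / ((n : ℝ) - 1) ≤ ART n := by
  apply le_csInf
  · exact ⟨3, avoid_of_two_lt (by norm_num) (by omega)⟩
  · intro s hs
    by_contra hlt
    push Not at hlt
    refine not_avoid' s n hn ?_ hs
    have hn1 : (0 : ℝ) < (n : ℝ) - 1 := by
      have : (2 : ℝ) ≤ n := by exact_mod_cast hn
      linarith
    have h1 : s - 1 < 1 / ((n : ℝ) - 1) := by linarith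
    rw [lt_div_iff₀ hn1] at h1
    linarith

lemma DART_lower' {r : ℝ} (hr1 : 1 < r) (hr2 : r ≤ 2) : 1 / (r - 1) + 1 < DART r := by
  have h0 : 0 < r - 1 := by linarith
  have h1 := DART_lower hr1
  have h2 : 1 ≤ 1 / (r - 1) := by rw [le_div_iff₀ h0]; linarith
  have h3 : 2 ≤ DART r := by
    have : (1 : ℝ) < DART r := by linarith
    exact_mod_cast this
  by_contra hlt
  push Not at hlt
  refine not_avoid' r (DART r) h3 ?_ (DART_mem hr1)
  have h4 : (DART r : ℝ) - 1 ≤ 1 / (r - 1) := by linarith
  rwa [le_div_iff₀ h0] at h4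

end MPbbea99L
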