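import Pool.Agent.Lib.Pbbea99L.Str
import Pool.Agent.Lib.Pbbea99L.Ar4
import Pool.Agent.Lib.Pbbea99.Final

/-!
# MP_bbea99_co: the words

Every `(E + 1)`-st letter is structural, the other letters are four interleaved periodic words with
`Q, Q + 2, Q + 4, Q + 6` letters.
-/

namespace MPbbea99L

open Finset MPbbea99

/-- class letters and structural letters -/
abbrev Let (Q : ℕ) := (Σ c : Fin 4, Fin (Q + 2 * c.val)) ⊕ Option (Fin 6 × Fin 2)

lemma card_Let (Q : ℕ) : Fintype.card (Let Q) = 4 * Q + 25 := by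
  simp only [Fintype.card_sum, Fintype.card_sigma, Fintype.card_fin, Fintype.card_option,
    Fintype.card_prod, Fin.sum_univ_four]
  simp only [Fin.val_zero, Fin.val_one, Fin.val_two]
  have h3 : ((3 : Fin 4) : ℕ) = 3 := rfl
  rw [h3]
  ring

open Classical in
/-- the structural sequence -/
noncomputable def sS (q k : ℕ) : Option (Fin 6 × Fin 2) :=
  if h : ∃ t : Fin 6 × Fin 2, Col (q ^ 11) (AA q) (hh q) 6 t.1 t.2 k then some h.choose else none

lemma sS_iff {q : ℕ} (hq : 2 ≤ q) (k : ℕ) (t : Fin 6 × Fin 2) :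
    sS q k = some t ↔ Col (q ^ 11) (AA q) (hh q) 6 t.1 t.2 k := by
  have hA : 0 < AA q := Nat.pow_pos (by omega)
  have hq11 : 2 ≤ q ^ 11 := by
    calc 2 ≤ q := by omega
      _ = q ^ 1 := (pow_one q).symm
      _ ≤ q ^ 11 := Nat.pow_le_pow_right (by omega) (by norm_num)
  have huniq : ∀ t t' : Fin 6 × Fin 2, Col (q ^ 11) (AA q) (hh q) 6 t.1 t.2 k →
      Col (q ^ 11) (AA q) (hh q) 6 t'.1 t'.2 k → t = t' := by
    rintro ⟨g, j⟩ ⟨g', j'⟩ ⟨s, hs, h1⟩ ⟨s', hs', h2⟩
    have hj : j.val ≤ 1 := by have := j.isLt; omega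
    have hj' : j'.val ≤ 1 := by have := j'.isLt; omega
    obtain ⟨h3, h4⟩ := One.unique hq11 hA hj hj' h1 h2
    simp only [Prod.mk.injEq]
    refine ⟨Fin.ext ?_, Fin.ext h4⟩
    simp only at hs hs'
    rw [← hs, ← hs', h3]
  unfold sS
  split_ifs with h
  · rw [Option.some.injEq]
    constructor
    · intro h1
      rw [← h1]
      exact h.choose_spec
    · intro h1
      exact huniq _ _ h.choose_spec h1
  · constructor
    · intro h1
      exact absurd h1 (by simp)
    · intro h1
      exact absurd ⟨t, h1⟩ h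

/-- the interleaved periodic words -/
def yy (Q : ℕ) (hQ : 0 < Q) (j : ℕ) : Σ c : Fin 4, Fin (Q + 2 * c.val) :=
  ⟨⟨j % 4, Nat.mod_lt _ (by norm_num)⟩, ⟨(j / 4) % (Q + 2 * (j % 4)), Nat.mod_lt _ (by omega)⟩⟩

lemma yy_iff {Q : ℕ} (hQ : 0 < Q) (j : ℕ) {c z : ℕ} (hc : c < 4) (hz : z < Q + 2 * c) :
    yy Q hQ j = ⟨⟨c, hc⟩, ⟨z, hz⟩⟩ ↔ j % 4 = c ∧ (j / 4) % (Q + 2 * c) = z := by
  unfold yy
  constructor
  · intro h
    have h1 := congrArg (fun t => t.1.val) h
    simp only at h1
    refine ⟨h1, ?_⟩
    have h2 := congrArg (fun t : (Σ c : Fin 4, Fin (Q + 2 * c.val)) => t.2.val) h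
    simp only at h2
    rw [← h2, h1]
  · rintro ⟨h1, h2⟩
    subst h1
    subst h2
    rfl

/-- the word -/
noncomputable def WW (E q Q : ℕ) (hQ : 0 < Q) (i : ℕ) : Let Q :=
  if (i + 1) % (E + 1) = 0 then Sum.inr (sS q (i / (E + 1)))
  else Sum.inl (yy Q hQ (i - i / (E + 1)))

theorem window {E q Q : ℕ} (hQ : 1000 ≤ Q) (hQ0 : 0 < Q) (hEQ : E + 2 ≤ 4 * Q)
    (hE : 100 ≤ E) (hq : 100 ≤ q) (hqE : 2 * E ≤ q ^ 143)
    (hx : 12 * ((E + 1) * (4 * q ^ 142)) ≤ Q * Q)
    (hy : 1000 * (E * ((E + 1) * (4 * q ^ 142))) ≤ Q * Q * Q)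
    (A m p : ℕ) (hm : 1 ≤ m) (hmp : m ≤ p) (hpm : p ≤ m * E)
    (h : ∀ c, cnt (fun i => WW E q Q hQ0 i = c) A (A + m) =
      cnt (fun i => WW E q Q hQ0 i = c) (A + p) (A + p + m)) : False := by
  classical
  set W := WW E q Q hQ0 with hW
  obtain ⟨P, hP⟩ : ∃ P, P = E + 1 := ⟨_, rfl⟩
  have hP1 : 1 ≤ P := by omega
  have hWs : ∀ i, (i + 1) % P = 0 → W i = Sum.inr (sS q (i / P)) := by
    intro i hi
    rw [hW, hP]
    unfold WW
    rw [if_pos (by rw [← hP]; exact hi)]
  have hWc : ∀ i, ¬ (i + 1) % P = 0 → W i = Sum.inl (yy Q hQ0 (i - i / P)) := by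
    intro i hi
    rw [hW, hP]
    unfold WW
    rw [if_neg (by rw [← hP]; exact hi)]
  -- structural predicates
  have hS : ∀ (Rp : ℕ → Prop) [DecidablePred Rp] (R' : Let Q → Prop),
      (∀ k, R' (Sum.inr (sS q k)) ↔ Rp k) → (∀ t, ¬ R' (Sum.inl t)) →
      cnt Rp (A / P) ((A + m) / P) = cnt Rp ((A + p) / P) ((A + p + m) / P) := by
    intro Rp _ R' hR1 hR2
    have h1 := cnt_pred_of_letters W h R'
    have h2 : ∀ u v, cnt (fun i => R' (W i)) u v
        = cnt (fun i => (i + 1) % P = 0 ∧ Rp (i / P)) u v := by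
      intro u v
      apply cnt_congr
      intro i _ _
      by_cases hi : (i + 1) % P = 0
      · rw [hWs i hi, hR1]
        simp [hi]
      · rw [hWc i hi]
        simp [hR2, hi]
    rw [h2, h2, cnt_struct Rp hP1 (by omega), cnt_struct Rp hP1 (by omega)] at h1
    exact h1
  -- class letters
  have hC : ∀ (Rp : ℕ → Prop) [DecidablePred Rp] (R' : Let Q → Prop),
      (∀ j, R' (Sum.inl (yy Q hQ0 j)) ↔ Rp j) → (∀ t, ¬ R' (Sum.inr t)) →
      cnt Rp (A - A / P) ((A + m) - (A + m) / P) =
        cnt Rp ((A + p) - (A + p) / P) ((A + p + m) - (A + p + m) / P) := by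
    intro Rp _ R' hR1 hR2
    have h1 := cnt_pred_of_letters W h R'
    have h2 : ∀ u v, cnt (fun i => R' (W i)) u v
        = cnt (fun i => (i + 1) % P ≠ 0 ∧ Rp (i - i / P)) u v := by
      intro u v
      apply cnt_congr
      intro i _ _
      by_cases hi : (i + 1) % P = 0
      · rw [hWs i hi]
        simp [hR2, hi]
      · rw [hWc i hi, hR1]
        simp [hi]
    rw [h2, h2, cnt_rand Rp hP1 (by omega), cnt_rand Rp hP1 (by omega)] at h1
    exact h1
  have hR : ∀ c < 4, ∀ z < Q + 2 * c,
      cnt (fun j => j % 4 = c ∧ (j / 4) % (Q + 2 * c) = z) (A - A / P) ((A + m) - (A + m) / P)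
      = cnt (fun j => j % 4 = c ∧ (j / 4) % (Q + 2 * c) = z) ((A + p) - (A + p) / P)
        ((A + p + m) - (A + p + m) / P) := by
    intro c hc z hz
    refine hC _ (fun x => x = Sum.inl ⟨⟨c, hc⟩, ⟨z, hz⟩⟩) (fun j => ?_) (fun t => by simp)
    rw [Sum.inl.injEq, yy_iff hQ0 _ hc hz]
  -- quotients
  have hd1 := Nat.div_add_mod A P
  have hd1' := Nat.mod_lt A (by omega : 0 < P)
  have hd2 := Nat.div_add_mod (A + m) P
  have hd2' := Nat.mod_lt (A + m) (by omega : 0 < P)
  have hd3 := Nat.div_add_mod (A + p) P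
  have hd3' := Nat.mod_lt (A + p) (by omega : 0 < P)
  have hd4 := Nat.div_add_mod (A + p + m) P
  have hd4' := Nat.mod_lt (A + p + m) (by omega : 0 < P)
  have hle1 : A / P ≤ (A + m) / P := Nat.div_le_div_right (by omega)
  have hle2 : (A + m) / P ≤ (A + p) / P := Nat.div_le_div_right (by omega)
  have hle3 : (A + p) / P ≤ (A + p + m) / P := Nat.div_le_div_right (by omega)
  have hself1 := Nat.div_le_self A P
  have hself2 := Nat.div_le_self (A + m) P
  have hself3 := Nat.div_le_self (A + p) P
  have hself4 := Nat.div_le_self (A + p + m) P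
  have hmono1 := sub_div_mono hP1 (by omega : A ≤ A + m)
  have hmono2 := sub_div_mono hP1 (by omega : A + m ≤ A + p)
  have hmono3 := sub_div_mono hP1 (by omega : A + p ≤ A + p + m)
  -- same number of structural letters
  have hm' : (A + m) / P - A / P = (A + p + m) / P - (A + p) / P := by
    have := hS (fun _ => True) (fun x => match x with
      | Sum.inl _ => False
      | Sum.inr _ => True) (fun k => Iff.rfl) (fun t h => h)
    rw [cnt_true, cnt_true] at this
    exact this
  obtain ⟨a, ha⟩ : ∃ a, a = A / P := ⟨_, rfl⟩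
  obtain ⟨a', ha'⟩ : ∃ a', a' = (A + m) / P := ⟨_, rfl⟩
  obtain ⟨b, hb⟩ : ∃ b, b = (A + p) / P := ⟨_, rfl⟩
  obtain ⟨b', hb'⟩ : ∃ b', b' = (A + p + m) / P := ⟨_, rfl⟩
  simp only [← ha, ← ha', ← hb, ← hb'] at *
  obtain ⟨n, hn1⟩ : ∃ n, a' = a + n := Nat.exists_eq_add_of_le hle1
  subst hn1
  have hb2 : b' = b + n := by omega
  subst hb2
  clear hm'
  have eP1 : P * (a + n) = P * a + P * n := by ring
  have eP2 : P * (b + n) = P * b + P * n := by ring
  -- m < P (n+1) and P n < m + P
  have hmP : m < P * n + P := by omega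
  have hmP2 : P * n < m + P := by omega
  obtain ⟨d, hd⟩ : ∃ d, b = a + d := Nat.exists_eq_add_of_le (by omega)
  have eP3 : P * b = P * a + P * d := by rw [hd]; ring
  by_cases hbig : 4 * q ^ 142 ≤ n
  · -- structural contradiction
    have hn1 : 1 ≤ n := by
      have : 0 < q ^ 142 := Nat.pow_pos (by omega)
      omega
    have hdn : d ≤ 2 * E * n := by
      by_contra hcon
      push Not at hcon
      have e1 : P * (2 * E * n + 1) ≤ P * d := Nat.mul_le_mul_left _ hcon
      have e2 : m * E ≤ (P * n + P) * E := Nat.mul_le_mul_right _ hmP.le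
      have e3 : P * E * 1 ≤ P * E * n := Nat.mul_le_mul_left _ hn1
      have e4 : P * (2 * E * n + 1) = P * E * n + P * E * n + P := by ring
      have e5 : (P * n + P) * E = P * E * n + P * E := by ring
      omega
    have hdq : d ≤ q ^ 143 * n := hdn.trans (Nat.mul_le_mul_right _ hqE)
    obtain ⟨g, hg, j, hj, hlt⟩ := struct_lemma hq a d n hbig (by omega) hdq
    have h1 := hS (Col (q ^ 11) (AA q) (hh q) 6 g j)
      (fun x => x = Sum.inr (some (⟨g, hg⟩, ⟨j, by omega⟩)))
      (fun k => by rw [Sum.inr.injEq]; exact sS_iff (by omega) k _) (fun t => by simp)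
    rw [hd] at h1
    omega
  · push Not at hbig
    have hml : m ≤ P * (4 * q ^ 142) := by
      calc m ≤ P * n + P := hmP.le
        _ = P * (n + 1) := by ring
        _ ≤ P * (4 * q ^ 142) := Nat.mul_le_mul_left _ hbig
    -- class window
    have hnm : n ≤ m := by
      have : n * 1 ≤ n * (P - 1) := Nat.mul_le_mul_left _ (by omega)
      by_contra hcon
      push Not at hcon
      have e1 : P * n = n * (P - 1) + n := by
        obtain ⟨P', rfl⟩ : ∃ P', P = P' + 1 := ⟨P - 1, by omega⟩
        rw [Nat.add_sub_cancel]; ring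
      omega
    obtain ⟨l, hl⟩ : ∃ l, m = n + l := Nat.exists_eq_add_of_le hnm
    have hl1 : (A + m) - (a + n) = (A - a) + l := by omega
    have hl2 : (A + p + m) - (b + n) = (A + p - b) + l := by omega
    rw [hl1, hl2] at hR
    -- n is small for small l
    have hn_small : l < 4 → n ≤ 1 := by
      intro hl4
      by_contra hcon
      push Not at hcon
      obtain ⟨n', rfl⟩ : ∃ n', n = n' + 2 := ⟨n - 2, by omega⟩
      have e1 : P * (n' + 2) = P * n' + 2 * P := by ring
      have e2 : 2 * n' ≤ P * n' := Nat.mul_le_mul_right _ (by omega)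
      omega
    have hbd : (A + p - b) - (A - a) = p - d := by omega
    have hdp : d ≤ p := by
      have : 1 * d ≤ P * d := Nat.mul_le_mul_right _ hP1
      by_contra hcon
      push Not at hcon
      have h5 : 2 * d ≤ P * d := Nat.mul_le_mul_right _ (by omega)
      omega
    rcases Nat.eq_zero_or_pos l with h0 | h0
    · -- only structural letters
      have h1 := hn_small (by omega)
      have hn1 : n = 1 := by omega
      subst hn1
      have hm1 : m = 1 := by omega
      subst hm1
      have hd1 : 1 ≤ d := by omega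
      have e1 : P * 1 ≤ P * d := Nat.mul_le_mul_left _ hd1
      omega
    · have hlb : (A - a) + l ≤ A + p - b := by omega
      rcases class_gen (k := 4) (M := fun c => Q + 2 * c) (by norm_num)
        (fun c _ => by show 2 ≤ Q + 2 * c; omega) h0 hlb hR with
        ⟨hl4, w, hw, hw1, hdiv⟩ | ⟨hl4, hdiv⟩
      · have hn1 := hn_small hl4
        have hd0 := Nat.le_of_dvd hw1 (hdiv 0 h0)
        have hQw : Q ≤ w := le_trans (Nat.le_add_right Q _) hd0
        rw [hbd] at hw
        rcases Nat.eq_or_lt_of_le h0 with h1 | h1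
        · -- l = 1
          rcases Nat.eq_zero_or_pos n with h2 | h2
          · subst h2
            have hm1 : m = 1 := by omega
            subst hm1
            omega
          · have hn : n = 1 := by omega
            subst hn
            have hm2 : m = 2 := by omega
            subst hm2
            have hd1 : d ≤ 1 := by
              by_contra hcon
              push Not at hcon
              have e1 : P * 2 ≤ P * d := Nat.mul_le_mul_left _ hcon
              omega
            have hd01 : d = 0 ∨ d = 1 := by omega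
            rcases hd01 with hd01 | hd01
            · subst hd01
              omega
            · subst hd01
              omega
        · -- l = 2, 3
          have h2 := hdiv 0 (by omega)
          have h3 := hdiv 1 (by omega)
          simp only [Nat.add_zero] at h2 h3
          obtain ⟨c0, hc0⟩ : ∃ c0, c0 = (A - a) % 4 := ⟨_, rfl⟩
          obtain ⟨c1, hc1⟩ : ∃ c1, c1 = (A - a + 1) % 4 := ⟨_, rfl⟩
          rw [← hc0] at h2
          rw [← hc1] at h3
          have hne : c0 ≠ c1 := by omega
          have hc04 : c0 < 4 := by omega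
          have hc14 : c1 < 4 := by omega
          have h4 := Int.natCast_dvd_natCast.2 h2
          have h5 := Int.natCast_dvd_natCast.2 h3
          push_cast at h4 h5
          have hw0 : (0 : ℤ) < w := by exact_mod_cast hw1
          have h6 := two_same (Q := (Q : ℤ)) (by omega) (by omega) (by omega) (by omega)
            (by rw [abs_le]; omega) hw0 h4 h5
          have h7 : Q * Q ≤ 6 * w := by exact_mod_cast h6
          have h8 : m ≤ 4 := by omega
          have h9 : m * E ≤ 4 * E := Nat.mul_le_mul_right _ h8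
          have h10 : 1000 * Q ≤ Q * Q := Nat.mul_le_mul_right _ hQ
          omega
      · -- long windows
        refine arith4 hQ (x := l / 4) (y := ((A + p - b) - (A - a)) / 4) ?_ ?_ ?_ ?_ hdiv
        · omega
        · omega
        · have e1 : P * (4 * q ^ 142) = (E + 1) * (4 * q ^ 142) := by rw [hP]
          omega
        · have e1 : m * E ≤ P * (4 * q ^ 142) * E := Nat.mul_le_mul_right _ hml
          have e2 : P * (4 * q ^ 142) * E = E * ((E + 1) * (4 * q ^ 142)) := by rw [hP]; ring
          omega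

end MPbbea99L
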